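import Mathlib

set_option autoImplicit false

namespace Irr56

variable {V : Type*} [DecidableEq V]

/-- closed neighbourhood relation: `Nb G v w` means `w ∈ N[v]`. -/
def Nb (G : SimpleGraph V) (v w : V) : Prop := w = v ∨ G.Adj v w

omit [DecidableEq V] in
theorem Nb.symm {G : SimpleGraph V} {v w : V} (h : Nb G v w) : Nb G w v := by
  rcases h with h | h
  · exact Or.inl h.symm
  · exact Or.inr h.symm

omit [DecidableEq V] in
theorem nb_comm {G : SimpleGraph V} {v w : V} : Nb G v w ↔ Nb G w v := ⟨Nb.symm, Nb.symm⟩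

omit [DecidableEq V] in
theorem nb_self {G : SimpleGraph V} (v : V) : Nb G v v := Or.inl rfl

/-- irredundance of `S` in the induced subgraph on `U` -/
def Irr (G : SimpleGraph V) (U S : Finset V) : Prop :=
  ∀ v ∈ S, ∃ w ∈ U, (w = v ∨ G.Adj v w) ∧ ∀ u ∈ S, u ≠ v → ¬ (w = u ∨ G.Adj u w)

/-- maximal irredundant set of the induced subgraph on `U` -/
def MaxIrr (G : SimpleGraph V) (U S : Finset V) : Prop :=
  S ⊆ U ∧ Irr G U S ∧ ∀ x ∈ U, x ∉ S → ¬ Irr G U (insert x S)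

/-- dominating set of the induced subgraph on `U` -/
def Dom (G : SimpleGraph V) (U S : Finset V) : Prop :=
  S ⊆ U ∧ ∀ v ∈ U, v ∈ S ∨ ∃ s ∈ S, G.Adj s v

/-- Goodness: every maximal irredundant set is at least as large as some dominating set -/
def Good (G : SimpleGraph V) (U : Finset V) : Prop :=
  ∀ X, MaxIrr G U X → ∃ D, Dom G U D ∧ D.card ≤ X.card

omit [DecidableEq V] in
theorem dom_iff {G : SimpleGraph V} {U S : Finset V} :
    Dom G U S ↔ S ⊆ U ∧ ∀ v ∈ U, ∃ s ∈ S, Nb G s v := by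
  unfold Dom Nb
  constructor
  · rintro ⟨h, h2⟩
    refine ⟨h, fun v hv => ?_⟩
    rcases h2 v hv with h3 | ⟨s, hs, h3⟩
    · exact ⟨v, h3, Or.inl rfl⟩
    · exact ⟨s, hs, Or.inr h3⟩
  · rintro ⟨h, h2⟩
    refine ⟨h, fun v hv => ?_⟩
    rcases h2 v hv with ⟨s, hs, h3 | h3⟩
    · subst h3; exact Or.inl hs
    · exact Or.inr ⟨s, hs, h3⟩

/-- A dominating set of minimum cardinality is a maximal irredundant set. -/
theorem maxIrr_of_min_dom {G : SimpleGraph V} {U D : Finset V} (hD : Dom G U D)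
    (hmin : ∀ D', Dom G U D' → D.card ≤ D'.card) : MaxIrr G U D := by
  rw [dom_iff] at hD
  obtain ⟨hDU, hDd⟩ := hD
  refine ⟨hDU, ?_, ?_⟩
  · intro v hv
    by_contra hcon
    have hcon2 : ∀ w ∈ U, Nb G v w → ∃ u ∈ D, u ≠ v ∧ Nb G u w := by
      intro w hw hvw
      by_contra hc
      apply hcon
      refine ⟨w, hw, hvw, ?_⟩
      intro u hu huv hn
      exact hc ⟨u, hu, huv, hn⟩
    have hdom : Dom G U (D.erase v) := by
      rw [dom_iff]
      refine ⟨(Finset.erase_subset _ _).trans hDU, fun w hw => ?_⟩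
      obtain ⟨s, hs, hsw⟩ := hDd w hw
      by_cases hsv : s = v
      · subst hsv
        obtain ⟨u, hu, huv, hn⟩ := hcon2 w hw hsw
        exact ⟨u, Finset.mem_erase.2 ⟨huv, hu⟩, hn⟩
      · exact ⟨s, Finset.mem_erase.2 ⟨hsv, hs⟩, hsw⟩
    have h1 := hmin _ hdom
    have h2 := Finset.card_erase_lt_of_mem hv
    omega
  · intro x hx hxD hirr
    obtain ⟨w, hw, _, hu⟩ := hirr x (Finset.mem_insert_self _ _)
    obtain ⟨s, hs, hsw⟩ := hDd w hw
    exact hu s (Finset.mem_insert_of_mem hs) (fun h => hxD (h ▸ hs)) hsw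

theorem exists_min_dom (G : SimpleGraph V) (U : Finset V) :
    ∃ D, Dom G U D ∧ ∀ D', Dom G U D' → D.card ≤ D'.card := by
  have hex : ∃ k, ∃ D, Dom G U D ∧ D.card = k :=
    ⟨U.card, U, ⟨Finset.Subset.refl _, fun v hv => Or.inl hv⟩, rfl⟩
  classical
  obtain ⟨D, hD, hc⟩ := Nat.find_spec hex
  refine ⟨D, hD, fun D' hD' => ?_⟩
  rw [hc]
  exact Nat.find_min' hex ⟨D', hD', rfl⟩

theorem exists_maxIrr (G : SimpleGraph V) (U : Finset V) : ∃ X, MaxIrr G U X := by
  obtain ⟨D, hD, hm⟩ := exists_min_dom G U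
  exact ⟨D, maxIrr_of_min_dom hD hm⟩

/-- equality of the two parameters in the form of the statement -/
theorem eq_of_good {G : SimpleGraph V} {U : Finset V} (h : Good G U) :
    sInf {k : ℕ | ∃ S : Finset V, S ⊆ U ∧
              (∀ v ∈ S, ∃ w ∈ U, (w = v ∨ G.Adj v w) ∧
                  ∀ u ∈ S, u ≠ v → ¬ (w = u ∨ G.Adj u w)) ∧
              (∀ x ∈ U, x ∉ S → ¬ ∀ v ∈ insert x S, ∃ w ∈ U, (w = v ∨ G.Adj v w) ∧
                  ∀ u ∈ insert x S, u ≠ v → ¬ (w = u ∨ G.Adj u w)) ∧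
              S.card = k}
          = sInf {k : ℕ | ∃ S : Finset V, S ⊆ U ∧
              (∀ v ∈ U, v ∈ S ∨ ∃ s ∈ S, G.Adj s v) ∧ S.card = k} := by
  apply le_antisymm
  · obtain ⟨D, hD, hm⟩ := exists_min_dom G U
    have hM := maxIrr_of_min_dom hD hm
    have h1 : sInf {k : ℕ | ∃ S : Finset V, S ⊆ U ∧
              (∀ v ∈ U, v ∈ S ∨ ∃ s ∈ S, G.Adj s v) ∧ S.card = k} ∈
              {k : ℕ | ∃ S : Finset V, S ⊆ U ∧
              (∀ v ∈ U, v ∈ S ∨ ∃ s ∈ S, G.Adj s v) ∧ S.card = k} :=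
      Nat.sInf_mem ⟨D.card, D, hD.1, hD.2, rfl⟩
    obtain ⟨D', h1', h2', h3'⟩ := h1
    rw [← h3']
    refine le_trans (Nat.sInf_le ?_) (hm D' ⟨h1', h2'⟩)
    exact ⟨D, hM.1, hM.2.1, hM.2.2, rfl⟩
  · obtain ⟨D, hD, hm⟩ := exists_min_dom G U
    have hM := maxIrr_of_min_dom hD hm
    have h1 : sInf {k : ℕ | ∃ S : Finset V, S ⊆ U ∧
              (∀ v ∈ S, ∃ w ∈ U, (w = v ∨ G.Adj v w) ∧
                  ∀ u ∈ S, u ≠ v → ¬ (w = u ∨ G.Adj u w)) ∧
              (∀ x ∈ U, x ∉ S → ¬ ∀ v ∈ insert x S, ∃ w ∈ U, (w = v ∨ G.Adj v w) ∧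
                  ∀ u ∈ insert x S, u ≠ v → ¬ (w = u ∨ G.Adj u w)) ∧
              S.card = k} ∈ {k : ℕ | ∃ S : Finset V, S ⊆ U ∧
              (∀ v ∈ S, ∃ w ∈ U, (w = v ∨ G.Adj v w) ∧
                  ∀ u ∈ S, u ≠ v → ¬ (w = u ∨ G.Adj u w)) ∧
              (∀ x ∈ U, x ∉ S → ¬ ∀ v ∈ insert x S, ∃ w ∈ U, (w = v ∨ G.Adj v w) ∧
                  ∀ u ∈ insert x S, u ≠ v → ¬ (w = u ∨ G.Adj u w)) ∧
              S.card = k} := Nat.sInf_mem ⟨D.card, D, hM.1, hM.2.1, hM.2.2, rfl⟩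
    obtain ⟨X, hX1, hX2, hX3, hX4⟩ := h1
    obtain ⟨D', hD', hc⟩ := h X ⟨hX1, hX2, hX3⟩
    rw [← hX4]
    refine le_trans (Nat.sInf_le ?_) hc
    exact ⟨D', hD'.1, hD'.2, rfl⟩

/-- inequality of the two parameters -/
theorem ne_of_bad {G : SimpleGraph V} {U X : Finset V} (hX : MaxIrr G U X)
    (h : ∀ D, Dom G U D → X.card < D.card) :
    sInf {k : ℕ | ∃ S : Finset V, S ⊆ U ∧
              (∀ v ∈ S, ∃ w ∈ U, (w = v ∨ G.Adj v w) ∧
                  ∀ u ∈ S, u ≠ v → ¬ (w = u ∨ G.Adj u w)) ∧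
              (∀ x ∈ U, x ∉ S → ¬ ∀ v ∈ insert x S, ∃ w ∈ U, (w = v ∨ G.Adj v w) ∧
                  ∀ u ∈ insert x S, u ≠ v → ¬ (w = u ∨ G.Adj u w)) ∧
              S.card = k}
          ≠ sInf {k : ℕ | ∃ S : Finset V, S ⊆ U ∧
              (∀ v ∈ U, v ∈ S ∨ ∃ s ∈ S, G.Adj s v) ∧ S.card = k} := by
  apply ne_of_lt
  obtain ⟨D, hD, hm⟩ := exists_min_dom G U
  have h1 : sInf {k : ℕ | ∃ S : Finset V, S ⊆ U ∧
              (∀ v ∈ U, v ∈ S ∨ ∃ s ∈ S, G.Adj s v) ∧ S.card = k} ∈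
              {k : ℕ | ∃ S : Finset V, S ⊆ U ∧
              (∀ v ∈ U, v ∈ S ∨ ∃ s ∈ S, G.Adj s v) ∧ S.card = k} :=
    Nat.sInf_mem ⟨D.card, D, hD.1, hD.2, rfl⟩
  obtain ⟨D', h1', h2', h3'⟩ := h1
  rw [← h3']
  refine lt_of_le_of_lt (Nat.sInf_le ?_) (h D' ⟨h1', h2'⟩)
  exact ⟨X, hX.1, hX.2.1, hX.2.2, rfl⟩

/-- if `x ∈ X` is isolated in `G[X]`, then `X \ {x}` is maximal irredundant in `U \ N[x]` -/
theorem maxIrr_erase {G : SimpleGraph V} [DecidableRel G.Adj] {U X : Finset V} (hX : MaxIrr G U X)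
    {x : V} (hx : x ∈ X) (hiso : ∀ y ∈ X, ¬ G.Adj x y) :
    MaxIrr G (U.filter (fun w => ¬ (w = x ∨ G.Adj x w))) (X.erase x) := by
  obtain ⟨hXU, hirr, hmax⟩ := hX
  refine ⟨?_, ?_, ?_⟩
  · intro y hy
    rw [Finset.mem_erase] at hy
    rw [Finset.mem_filter]
    refine ⟨hXU hy.2, ?_⟩
    rintro (h | h)
    · exact hy.1 h
    · exact hiso y hy.2 h
  · intro v hv
    rw [Finset.mem_erase] at hv
    obtain ⟨w, hw, hvw, hu⟩ := hirr v hv.2
    refine ⟨w, ?_, hvw, ?_⟩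
    · rw [Finset.mem_filter]
      exact ⟨hw, hu x hx (Ne.symm hv.1)⟩
    · intro u huX huv
      exact hu u (Finset.mem_of_mem_erase huX) huv
  · intro t ht htX hirr'
    rw [Finset.mem_filter] at ht
    have htx : t ≠ x := fun h => ht.2 (Or.inl h)
    have htX' : t ∉ X := fun h => htX (Finset.mem_erase.2 ⟨htx, h⟩)
    apply hmax t ht.1 htX'
    intro v hv
    by_cases hvx : v = x
    · subst hvx
      refine ⟨v, hXU hx, Or.inl rfl, ?_⟩
      intro u hu huv
      rw [Finset.mem_insert] at hu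
      rcases hu with hu | hu
      · subst hu
        rintro (h | h)
        · exact huv h.symm
        · exact ht.2 (Or.inr h.symm)
      · rintro (h | h)
        · exact huv h.symm
        · exact hiso u hu h.symm
    · have hv' : v ∈ insert t (X.erase x) := by
        rw [Finset.mem_insert] at hv ⊢
        rcases hv with hv | hv
        · exact Or.inl hv
        · exact Or.inr (Finset.mem_erase.2 ⟨hvx, hv⟩)
      obtain ⟨w, hw, hvw, hu⟩ := hirr' v hv'
      rw [Finset.mem_filter] at hw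
      refine ⟨w, hw.1, hvw, ?_⟩
      intro u hu' huv
      by_cases hux : u = x
      · subst hux; exact hw.2
      · apply hu u _ huv
        rw [Finset.mem_insert] at hu' ⊢
        rcases hu' with hu' | hu'
        · exact Or.inl hu'
        · exact Or.inr (Finset.mem_erase.2 ⟨hux, hu'⟩)

/-- reduction of goodness of all proper subsets of `Z` to the cases of connected sets of
cardinality 2, of cardinality 3 without isolated vertices, and to `γ ≤ 4` -/
theorem good_of {G : SimpleGraph V} {Z : Finset V}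
    (h2 : ∀ S, S ⊂ Z → ∀ a b, G.Adj a b → MaxIrr G S {a, b} → ∃ D, Dom G S D ∧ D.card ≤ 2)
    (h3 : ∀ S, S ⊂ Z → ∀ X, MaxIrr G S X → X.card = 3 → (∀ x ∈ X, ∃ y ∈ X, G.Adj x y) →
      ∃ D, Dom G S D ∧ D.card ≤ 3)
    (h4 : ∀ S, S ⊂ Z → (∀ x ∈ S, ∃ y ∈ S, G.Adj x y) → ∃ D, Dom G S D ∧ D.card ≤ 4) :
    ∀ S, S ⊂ Z → Good G S := by
  classical
  suffices H : ∀ n : ℕ, ∀ X : Finset V, X.card = n → ∀ S, S ⊂ Z → MaxIrr G S X →
      ∃ D, Dom G S D ∧ D.card ≤ X.card by
    intro S hS X hX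
    exact H _ X rfl S hS hX
  intro n
  induction n using Nat.strong_induction_on with
  | _ n ih =>
  intro X hn S hS hX
  by_cases hdom : Dom G S X
  · exact ⟨X, hdom, le_refl _⟩
  by_cases hiso : ∃ x ∈ X, ∀ y ∈ X, ¬ G.Adj x y
  · obtain ⟨x, hx, hxi⟩ := hiso
    have hM := maxIrr_erase hX hx hxi
    have hlt : (X.erase x).card < n := by
      rw [← hn]; exact Finset.card_erase_lt_of_mem hx
    have hsub : (S.filter (fun w => ¬ (w = x ∨ G.Adj x w))) ⊂ Z :=
      lt_of_le_of_lt (Finset.filter_subset _ _) hS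
    obtain ⟨D, hD, hc⟩ := ih _ hlt (X.erase x) rfl _ hsub hM
    refine ⟨insert x D, ?_, ?_⟩
    · rw [dom_iff] at hD ⊢
      refine ⟨?_, ?_⟩
      · intro y hy
        rw [Finset.mem_insert] at hy
        rcases hy with hy | hy
        · subst hy; exact hX.1 hx
        · exact Finset.filter_subset _ _ (hD.1 hy)
      · intro v hv
        by_cases hvx : v = x ∨ G.Adj x v
        · exact ⟨x, Finset.mem_insert_self _ _, hvx⟩
        · obtain ⟨s, hs, hsv⟩ := hD.2 v (Finset.mem_filter.2 ⟨hv, hvx⟩)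
          exact ⟨s, Finset.mem_insert_of_mem hs, hsv⟩
    · have h1 := Finset.card_insert_le x D
      have h2 := Finset.card_erase_of_mem hx
      have h3 : 0 < X.card := Finset.card_pos.2 ⟨x, hx⟩
      omega
  · push Not at hiso
    -- no isolated vertex in X
    by_cases hc0 : X.card = 0
    · exfalso
      rw [Finset.card_eq_zero] at hc0
      subst hc0
      apply hdom
      refine ⟨by simp, ?_⟩
      intro v hv
      exfalso
      apply hX.2.2 v hv (by simp)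
      intro u hu
      simp only [insert_empty_eq, Finset.mem_singleton] at hu
      subst hu
      exact ⟨u, hv, Or.inl rfl, by simp⟩
    by_cases hc1 : X.card = 1
    · exfalso
      rw [Finset.card_eq_one] at hc1
      obtain ⟨a, rfl⟩ := hc1
      obtain ⟨y, hy, hay⟩ := hiso a (by simp)
      simp only [Finset.mem_singleton] at hy
      subst hy
      exact G.loopless.irrefl _ hay
    by_cases hc2 : X.card = 2
    · rw [Finset.card_eq_two] at hc2
      obtain ⟨a, b, hab, rfl⟩ := hc2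
      obtain ⟨y, hy, hay⟩ := hiso a (by simp)
      simp only [Finset.mem_insert, Finset.mem_singleton] at hy
      have hadj : G.Adj a b := by
        rcases hy with rfl | rfl
        · exact absurd hay (G.loopless.irrefl _)
        · exact hay
      obtain ⟨D, hD, hc⟩ := h2 S hS a b hadj hX
      exact ⟨D, hD, by rw [Finset.card_pair hab]; exact hc⟩
    by_cases hc3 : X.card = 3
    · obtain ⟨D, hD, hc⟩ := h3 S hS X hX hc3 hiso
      exact ⟨D, hD, by rw [hc3]; exact hc⟩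
    · have hSiso : ∀ x ∈ S, ∃ y ∈ S, G.Adj x y := by
        intro x hx
        by_cases hxX : x ∈ X
        · obtain ⟨y, hy, hxy⟩ := hiso x hxX
          exact ⟨y, hX.1 hy, hxy⟩
        · by_contra hcon
          push Not at hcon
          apply hX.2.2 x hx hxX
          intro v hv
          rw [Finset.mem_insert] at hv
          rcases hv with hv | hv
          · subst hv
            refine ⟨v, hx, Or.inl rfl, ?_⟩
            rintro u hu huv (h | h)
            · exact huv h.symm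
            · rw [Finset.mem_insert] at hu
              rcases hu with hu | hu
              · exact huv hu
              · exact hcon u (hX.1 hu) h.symm
          · obtain ⟨w, hw, hvw, hu⟩ := hX.2.1 v hv
            refine ⟨w, hw, hvw, ?_⟩
            intro u hu' huv
            rw [Finset.mem_insert] at hu'
            rcases hu' with hu' | hu'
            · subst hu'
              rintro (h | h)
              · subst h
                rcases hvw with h | h
                · exact huv h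
                · exact hcon v (hX.1 hv) h.symm
              · exact hcon w hw h
            · exact hu u hu' huv
      obtain ⟨D, hD, hc⟩ := h4 S hS hSiso
      exact ⟨D, hD, by omega⟩

end Irr56

namespace Irr56

variable {V : Type*} [DecidableEq V]

/-- annihilation property of maximal irredundant sets -/
theorem ann {G : SimpleGraph V} {S X : Finset V} (hX : MaxIrr G S X) {t u : V}
    (ht : t ∈ S) (htX : t ∉ X) (hu : u ∈ S) (hun : ∀ x ∈ X, ¬ Nb G x u) (htu : Nb G t u) :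
    ∃ x ∈ X, ∀ p ∈ S, Nb G x p → (∀ y ∈ X, y ≠ x → ¬ Nb G y p) → Nb G t p := by
  have h := hX.2.2 t ht htX
  unfold Irr at h
  push Not at h
  obtain ⟨v, hv, h⟩ := h
  rw [Finset.mem_insert] at hv
  rcases hv with rfl | hv
  · exfalso
    obtain ⟨y, hy, hyv, hyu⟩ := h u hu htu
    rw [Finset.mem_insert] at hy
    rcases hy with rfl | hy
    · exact hyv rfl
    · exact hun y hy hyu
  · refine ⟨v, hv, ?_⟩
    intro p hp hvp hpr
    obtain ⟨y, hy, hyv, hyp⟩ := h p hp hvp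
    rw [Finset.mem_insert] at hy
    rcases hy with rfl | hy
    · exact hyp
    · exact absurd hyp (hpr y hy hyv)

theorem no_pair {G : SimpleGraph V} {S : Finset V} (hno : ¬ ∃ D, Dom G S D ∧ D.card ≤ 2)
    {s t : V} (hs : s ∈ S) (ht : t ∈ S) : ∃ u ∈ S, ¬ Nb G s u ∧ ¬ Nb G t u := by
  by_contra hcon
  push Not at hcon
  apply hno
  refine ⟨{s, t}, ?_, Finset.card_le_two⟩
  rw [dom_iff]
  refine ⟨?_, ?_⟩
  · intro y hy
    simp only [Finset.mem_insert, Finset.mem_singleton] at hy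
    rcases hy with rfl | rfl <;> assumption
  · intro v hv
    by_cases h : Nb G s v
    · exact ⟨s, by simp, h⟩
    · exact ⟨t, by simp, hcon v hv h⟩

theorem no_triple {G : SimpleGraph V} {S : Finset V} (hno : ¬ ∃ D, Dom G S D ∧ D.card ≤ 3)
    {s t r : V} (hs : s ∈ S) (ht : t ∈ S) (hr : r ∈ S) :
    ∃ u ∈ S, ¬ Nb G s u ∧ ¬ Nb G t u ∧ ¬ Nb G r u := by
  by_contra hcon
  push Not at hcon
  apply hno
  refine ⟨{s, t, r}, ?_, Finset.card_le_three⟩
  rw [dom_iff]
  refine ⟨?_, ?_⟩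
  · intro y hy
    simp only [Finset.mem_insert, Finset.mem_singleton] at hy
    rcases hy with rfl | rfl | rfl <;> assumption
  · intro v hv
    by_cases h : Nb G s v
    · exact ⟨s, by simp, h⟩
    · by_cases h' : Nb G t v
      · exact ⟨t, by simp, h'⟩
      · exact ⟨r, by simp, hcon v hv h h'⟩

/-- the general structure lemma for maximal irredundant sets of cardinality 2 -/
theorem pair_structure {G : SimpleGraph V} {S : Finset V} {a b : V} (hab : G.Adj a b)
    (hX : MaxIrr G S {a, b}) (hno : ¬ ∃ D, Dom G S D ∧ D.card ≤ 2) :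
    ∃ y p q u1 u2 : V, G.Adj a y ∧ G.Adj b y ∧ G.Adj a p ∧ ¬ Nb G b p ∧ ¬ Nb G p y ∧
      G.Adj b q ∧ ¬ Nb G a q ∧ ¬ Nb G q y ∧
      ¬ Nb G a u1 ∧ ¬ Nb G b u1 ∧ ¬ Nb G y u1 ∧ ¬ Nb G a u2 ∧ ¬ Nb G b u2 ∧ ¬ Nb G y u2 ∧
      Nb G p u1 ∧ ¬ Nb G q u1 ∧ Nb G q u2 ∧ ¬ Nb G p u2 := by
  have hne : a ≠ b := hab.ne
  have haS : a ∈ S := hX.1 (by simp)
  have hbS : b ∈ S := hX.1 (by simp)
  -- annihilation in simple form
  have hann : ∀ t ∈ S, t ≠ a → t ≠ b → ∀ u ∈ S, ¬ Nb G a u → ¬ Nb G b u → Nb G t u →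
      (∀ p ∈ S, Nb G a p → ¬ Nb G b p → Nb G t p) ∨
      (∀ p ∈ S, Nb G b p → ¬ Nb G a p → Nb G t p) := by
    intro t ht hta htb u hu hau hbu htu
    obtain ⟨x, hx, hp⟩ := ann hX ht (by simp [hta, htb]) hu (by
      intro x hx
      simp only [Finset.mem_insert, Finset.mem_singleton] at hx
      rcases hx with rfl | rfl <;> assumption) htu
    simp only [Finset.mem_insert, Finset.mem_singleton] at hx
    rcases hx with rfl | rfl
    · left
      intro p hpS h1 h2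
      apply hp p hpS h1
      intro y hy hyx
      simp only [Finset.mem_insert, Finset.mem_singleton] at hy
      rcases hy with rfl | rfl
      · exact absurd rfl hyx
      · exact h2
    · right
      intro p hpS h1 h2
      apply hp p hpS h1
      intro y hy hyx
      simp only [Finset.mem_insert, Finset.mem_singleton] at hy
      rcases hy with rfl | rfl
      · exact h2
      · exact absurd rfl hyx
  -- private neighbours
  obtain ⟨pa, hpaS, hapa, hpa⟩ := hX.2.1 a (by simp)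
  have hbpa : ¬ Nb G b pa := hpa b (by simp) (Ne.symm hne)
  obtain ⟨pb, hpbS, hbpb, hpb⟩ := hX.2.1 b (by simp)
  have hapb : ¬ Nb G a pb := hpb a (by simp) hne
  -- key: not every undominated vertex annihilates a
  have key1 : ∃ u ∈ S, ¬ Nb G a u ∧ ¬ Nb G b u ∧ ∃ p ∈ S, Nb G a p ∧ ¬ Nb G b p ∧ ¬ Nb G u p := by
    by_contra hcon
    push Not at hcon
    have hpaa : pa ≠ a := fun h => hbpa (h ▸ Or.inr hab.symm)
    have hpab : pa ≠ b := fun h => hbpa (h ▸ Or.inl rfl)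
    obtain ⟨u, hu, hau, hbu⟩ := no_pair hno haS hbS
    have hpu : Nb G pa u := (hcon u hu hau hbu pa hpaS hapa hbpa).symm
    rcases hann pa hpaS hpaa hpab u hu hau hbu hpu with h | h
    · obtain ⟨w, hw, hbw, hpw⟩ := no_pair hno hbS hpaS
      by_cases haw : Nb G a w
      · exact hpw (h w hw haw hbw)
      · exact hpw (hcon w hw haw hbw pa hpaS hapa hbpa).symm
    · obtain ⟨w, hw, haw, hpw⟩ := no_pair hno haS hpaS
      by_cases hbw : Nb G b w
      · exact hpw (h w hw hbw haw)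
      · exact hpw (hcon w hw haw hbw pa hpaS hapa hbpa).symm
  have key2 : ∃ u ∈ S, ¬ Nb G a u ∧ ¬ Nb G b u ∧ ∃ p ∈ S, Nb G b p ∧ ¬ Nb G a p ∧ ¬ Nb G u p := by
    by_contra hcon
    push Not at hcon
    have hpba : pb ≠ a := fun h => hapb (h ▸ Or.inl rfl)
    have hpbb : pb ≠ b := fun h => hapb (h ▸ Or.inr hab)
    obtain ⟨u, hu, hau, hbu⟩ := no_pair hno haS hbS
    have hpu : Nb G pb u := (hcon u hu hau hbu pb hpbS hbpb hapb).symm
    rcases hann pb hpbS hpba hpbb u hu hau hbu hpu with h | h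
    · obtain ⟨w, hw, hbw, hpw⟩ := no_pair hno hbS hpbS
      by_cases haw : Nb G a w
      · exact hpw (h w hw haw hbw)
      · exact hpw (hcon w hw haw hbw pb hpbS hbpb hapb).symm
    · obtain ⟨w, hw, haw, hpw⟩ := no_pair hno haS hpbS
      by_cases hbw : Nb G b w
      · exact hpw (h w hw hbw haw)
      · exact hpw (hcon w hw haw hbw pb hpbS hbpb hapb).symm
  obtain ⟨u2, hu2, hau2, hbu2, p, hp, hap, hbp, hu2p⟩ := key1
  obtain ⟨u1, hu1, hau1, hbu1, q, hq, hbq, haq, hu1q⟩ := key2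
  have hu2x : u2 ≠ a ∧ u2 ≠ b := ⟨fun h => hau2 (h ▸ Or.inl rfl), fun h => hbu2 (h ▸ Or.inl rfl)⟩
  have hu1x : u1 ≠ a ∧ u1 ≠ b := ⟨fun h => hau1 (h ▸ Or.inl rfl), fun h => hbu1 (h ▸ Or.inl rfl)⟩
  have A1 : ∀ r ∈ S, Nb G a r → ¬ Nb G b r → Nb G u1 r := by
    rcases hann u1 hu1 hu1x.1 hu1x.2 u1 hu1 hau1 hbu1 (Or.inl rfl) with h | h
    · exact h
    · exact absurd (h q hq hbq haq) hu1q
  have A2 : ∀ r ∈ S, Nb G b r → ¬ Nb G a r → Nb G u2 r := by
    rcases hann u2 hu2 hu2x.1 hu2x.2 u2 hu2 hau2 hbu2 (Or.inl rfl) with h | h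
    · exact absurd (h p hp hap hbp) hu2p
    · exact h
  have hpu1 : Nb G p u1 := (A1 p hp hap hbp).symm
  have hqu2 : Nb G q u2 := (A2 q hq hbq haq).symm
  have hW : ∀ w ∈ S, ¬ Nb G a w → ¬ Nb G b w → Nb G p w ∨ Nb G q w := by
    intro w hw haw hbw
    have h1 : w ≠ a := fun h => haw (h ▸ Or.inl rfl)
    have h2 : w ≠ b := fun h => hbw (h ▸ Or.inl rfl)
    rcases hann w hw h1 h2 w hw haw hbw (Or.inl rfl) with h | h
    · exact Or.inl (h p hp hap hbp).symm
    · exact Or.inr (h q hq hbq haq).symm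
  obtain ⟨y, hy, hpy, hqy⟩ := no_pair hno hp hq
  have hya : y ≠ a := fun h => hpy (h ▸ hap.symm)
  have hyb : y ≠ b := fun h => hqy (h ▸ hbq.symm)
  have hyW : ∀ w ∈ S, ¬ Nb G a w → ¬ Nb G b w → ¬ Nb G y w := by
    intro w hw haw hbw hyw
    rcases hann y hy hya hyb w hw haw hbw hyw with h | h
    · exact hpy (h p hp hap hbp).symm
    · exact hqy (h q hq hbq haq).symm
  have hay : Nb G a y := by
    by_contra hay
    by_cases hby : Nb G b y
    · exact hyW u2 hu2 hau2 hbu2 (A2 y hy hby hay).symm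
    · rcases hW y hy hay hby with h | h
      · exact hpy h
      · exact hqy h
  have hby : Nb G b y := by
    by_contra hby
    exact hyW u1 hu1 hau1 hbu1 (A1 y hy hay hby).symm
  have hay' : G.Adj a y := by
    rcases hay with h | h
    · exact absurd h hya
    · exact h
  have hby' : G.Adj b y := by
    rcases hby with h | h
    · exact absurd h hyb
    · exact h
  have hap' : G.Adj a p := by
    rcases hap with h | h
    · subst h
      exact absurd (Or.inr hab.symm) hbp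
    · exact h
  have hbq' : G.Adj b q := by
    rcases hbq with h | h
    · subst h
      exact absurd (Or.inr hab) haq
    · exact h
  exact ⟨y, p, q, u1, u2, hay', hby', hap', hbp, hpy, hbq', haq, hqy, hau1, hbu1,
    hyW u1 hu1 hau1 hbu1, hau2, hbu2, hyW u2 hu2 hau2 hbu2, hpu1, fun h => hu1q h.symm, hqu2,
    fun h => hu2p h.symm⟩

end Irr56

namespace Irr56

/-- abstract cyclic structure: two involutions (the two cyclic neighbours, one of the same colour
and one of the opposite colour) -/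
structure Cyc (ι : Type) where
  s : ι → ι
  o : ι → ι
  B : ι → Prop
  ss : ∀ i, s (s i) = i
  oo : ∀ i, o (o i) = i
  sB : ∀ i, B (s i) ↔ B i
  oB : ∀ i, B (o i) ↔ ¬ B i
  si : ∀ i, s i ≠ i
  conn : ∀ P : ι → Prop, (∃ i, P i) → (∀ i, P i → P (s i)) → (∀ i, P i → P (o i)) → ∀ i, P i

inductive W (ι : Type) | k0 | k1 | k2 | k3 | k4 | k5 | k6 | k7 | k8 | r (i : ι)
  deriving DecidableEq

open W

variable {ι : Type}

/-- closed neighbourhood relation -/
def nb (C : Cyc ι) : W ι → W ι → Prop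
  | k0, k0 => True
  | k0, k2 => True
  | k0, k3 => True
  | k0, k6 => True
  | k1, k1 => True
  | k1, k2 => True
  | k1, k3 => True
  | k1, k4 => True
  | k1, r i => C.B i
  | k2, k0 => True
  | k2, k1 => True
  | k2, k2 => True
  | k2, k4 => True
  | k2, k5 => True
  | k3, k0 => True
  | k3, k1 => True
  | k3, k3 => True
  | k3, k4 => True
  | k4, k1 => True
  | k4, k2 => True
  | k4, k3 => True
  | k4, k4 => True
  | k4, k6 => True
  | k4, r i => ¬ C.B i
  | k5, k2 => True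
  | k5, k5 => True
  | k5, k8 => True
  | k6, k0 => True
  | k6, k4 => True
  | k6, k6 => True
  | k6, r _ => True
  | k7, k7 => True
  | k7, r _ => True
  | k8, k5 => True
  | k8, k8 => True
  | k8, r _ => True
  | r i, k1 => C.B i
  | r i, k4 => ¬ C.B i
  | r _, k6 => True
  | r _, k7 => True
  | r _, k8 => True
  | r i, r j => j ≠ C.s i ∧ j ≠ C.o i
  | _, _ => False

theorem Cyc.oi (C : Cyc ι) (i : ι) : C.o i ≠ i := by
  intro h
  have h1 := C.oB i
  rw [h] at h1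
  tauto

theorem Cyc.so (C : Cyc ι) (i : ι) : C.s i ≠ C.o i := by
  intro h
  have h1 := C.oB i
  have h2 := C.sB i
  rw [← h] at h1
  tauto

theorem nb_refl (C : Cyc ι) (a : W ι) : nb C a a := by
  cases a with
  | r i => exact ⟨fun h => C.si i h.symm, fun h => C.oi i h.symm⟩
  | _ => trivial

theorem nb_sym (C : Cyc ι) {a b : W ι} (h : nb C a b) : nb C b a := by
  cases a <;> cases b <;> try exact h
  rename_i i j
  obtain ⟨h1, h2⟩ := h
  refine ⟨fun h => h1 ?_, fun h => h2 ?_⟩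
  · rw [h, C.ss]
  · rw [h, C.oo]

/-- the graph -/
def GG (C : Cyc ι) : SimpleGraph (W ι) where
  Adj a b := a ≠ b ∧ nb C a b
  symm := ⟨fun _ _ h => ⟨h.1.symm, nb_sym C h.2⟩⟩
  loopless := ⟨fun _ h => h.1 rfl⟩

theorem Nb_iff (C : Cyc ι) (a b : W ι) : Nb (GG C) a b ↔ nb C a b := by
  unfold Nb GG
  constructor
  · rintro (h | h)
    · subst h; exact nb_refl C _
    · exact h.2
  · intro h
    by_cases hab : b = a
    · exact Or.inl hab
    · exact Or.inr ⟨fun h => hab h.symm, h⟩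

theorem ex_W {P : W ι → Prop} : (∃ w, P w) ↔ (P k0 ∨ P k1 ∨ P k2 ∨ P k3 ∨ P k4 ∨ P k5 ∨ P k6 ∨ P k7 ∨ P k8 ∨ ∃ t, P (r t)) := by
  constructor
  · rintro ⟨w, hw⟩
    cases w with
    | r t => exact Or.inr (Or.inr (Or.inr (Or.inr (Or.inr (Or.inr (Or.inr (Or.inr (Or.inr ⟨t, hw⟩))))))))
    | _ => simp_all
  · rintro (h|h|h|h|h|h|h|h|h|⟨t, h⟩) <;> exact ⟨_, h⟩

theorem all_W {P : W ι → Prop} : (∀ w, P w) ↔ (P k0 ∧ P k1 ∧ P k2 ∧ P k3 ∧ P k4 ∧ P k5 ∧ P k6 ∧ P k7 ∧ P k8 ∧ ∀ t, P (r t)) := by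
  constructor
  · intro h; exact ⟨h _, h _, h _, h _, h _, h _, h _, h _, h _, fun t => h _⟩
  · rintro ⟨h1,h2,h3,h4,h5,h6,h7,h8,h9,h10⟩ w
    cases w <;> simp_all

/-- hypotheses on a bad triple -/
structure Hyp (C : Cyc ι) (S : W ι → Prop) (a b c : W ι) : Prop where
  ha : S a
  hb : S b
  hc : S c
  ia : ∃ p, S p ∧ nb C a p ∧ ¬ nb C b p ∧ ¬ nb C c p
  ib : ∃ p, S p ∧ nb C b p ∧ ¬ nb C a p ∧ ¬ nb C c p
  ic : ∃ p, S p ∧ nb C c p ∧ ¬ nb C a p ∧ ¬ nb C b p
  an : ∀ t, S t → t ≠ a → t ≠ b → t ≠ c → ∀ u, S u → ¬ nb C a u → ¬ nb C b u → ¬ nb C c u →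
    nb C t u →
    (∀ p, S p → nb C a p → ¬ nb C b p → ¬ nb C c p → nb C t p) ∨
    (∀ p, S p → nb C b p → ¬ nb C a p → ¬ nb C c p → nb C t p) ∨
    (∀ p, S p → nb C c p → ¬ nb C a p → ¬ nb C b p → nb C t p)
  D : ∀ x y z, S x → S y → S z → ∃ u, S u ∧ ¬ nb C x u ∧ ¬ nb C y u ∧ ¬ nb C z u

variable {C : Cyc ι} {S : W ι → Prop} {a b c : W ι}

theorem Hyp.swap12 (h : Hyp C S a b c) : Hyp C S b a c where
  ha := h.hb
  hb := h.ha
  hc := h.hc
  ia := h.ib
  ib := h.ia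
  ic := by obtain ⟨p, h1, h2, h3, h4⟩ := h.ic; exact ⟨p, h1, h2, h4, h3⟩
  an := by
    intro t ht h1 h2 h3 u hu h4 h5 h6 h7
    rcases h.an t ht h2 h1 h3 u hu h5 h4 h6 h7 with h8 | h8 | h8
    · exact Or.inr (Or.inl h8)
    · exact Or.inl h8
    · exact Or.inr (Or.inr (fun p hp h9 h10 h11 => h8 p hp h9 h11 h10))
  D := h.D

theorem Hyp.swap23 (h : Hyp C S a b c) : Hyp C S a c b where
  ha := h.ha
  hb := h.hc
  hc := h.hb
  ia := by obtain ⟨p, h1, h2, h3, h4⟩ := h.ia; exact ⟨p, h1, h2, h4, h3⟩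
  ib := h.ic
  ic := h.ib
  an := by
    intro t ht h1 h2 h3 u hu h4 h5 h6 h7
    rcases h.an t ht h1 h3 h2 u hu h4 h6 h5 h7 with h8 | h8 | h8
    · exact Or.inl (fun p hp h9 h10 h11 => h8 p hp h9 h11 h10)
    · exact Or.inr (Or.inr h8)
    · exact Or.inr (Or.inl h8)
  D := h.D

/-- no vertex dominates the set of undominated vertices -/
theorem Hyp.F (h : Hyp C S a b c) (t : W ι) (ht : S t) :
    ∃ u, S u ∧ ¬ nb C a u ∧ ¬ nb C b u ∧ ¬ nb C c u ∧ ¬ nb C t u := by
  by_contra hcon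
  push Not at hcon
  obtain ⟨u, hu, h1, h2, h3⟩ := h.D a b c h.ha h.hb h.hc
  have hta : t ≠ a := fun he => h1 (he ▸ hcon u hu h1 h2 h3)
  have htb : t ≠ b := fun he => h2 (he ▸ hcon u hu h1 h2 h3)
  have htc : t ≠ c := fun he => h3 (he ▸ hcon u hu h1 h2 h3)
  rcases h.an t ht hta htb htc u hu h1 h2 h3 (hcon u hu h1 h2 h3) with h4 | h4 | h4
  · obtain ⟨w, hw, h5, h6, h7⟩ := h.D b c t h.hb h.hc ht
    by_cases h8 : nb C a w
    · exact h7 (h4 w hw h8 h5 h6)
    · exact h7 (hcon w hw h8 h5 h6)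
  · obtain ⟨w, hw, h5, h6, h7⟩ := h.D a c t h.ha h.hc ht
    by_cases h8 : nb C b w
    · exact h7 (h4 w hw h8 h5 h6)
    · exact h7 (hcon w hw h5 h8 h6)
  · obtain ⟨w, hw, h5, h6, h7⟩ := h.D a b t h.ha h.hb ht
    by_cases h8 : nb C c w
    · exact h7 (h4 w hw h8 h5 h6)
    · exact h7 (hcon w hw h5 h6 h8)

/-- annihilation by an undominated vertex -/
theorem Hyp.an' (h : Hyp C S a b c) (u : W ι) (hu : S u) (h1 : ¬ nb C a u) (h2 : ¬ nb C b u)
    (h3 : ¬ nb C c u) :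
    (∀ p, S p → nb C a p → ¬ nb C b p → ¬ nb C c p → nb C u p) ∨
    (∀ p, S p → nb C b p → ¬ nb C a p → ¬ nb C c p → nb C u p) ∨
    (∀ p, S p → nb C c p → ¬ nb C a p → ¬ nb C b p → nb C u p) :=
  h.an u hu (fun he => h1 (he ▸ nb_refl C u)) (fun he => h2 (he ▸ nb_refl C u))
    (fun he => h3 (he ▸ nb_refl C u)) u hu h1 h2 h3 (nb_refl C u)

end Irr56
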