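import Pool.Agent.Lib.MP_b725e3_co.A1_Base

set_option autoImplicit false

namespace Irr56

open W

variable {ι : Type}

/-- the core vertices by index -/
def kk : Fin 9 → W ι := ![k0, k1, k2, k3, k4, k5, k6, k7, k8]

/-- closed neighbourhood table of the core -/
def tb (i j : Fin 9) : Bool :=
  ((![77, 30, 55, 27, 94, 292, 81, 128, 288] : Fin 9 → ℕ) i).testBit j.val

/-- core vertices adjacent to the cycle vertices of one colour (`true`: colour B) -/
def tr (c : Bool) (i : Fin 9) : Bool :=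
  match c with
  | true => (450 : ℕ).testBit i.val
  | false => (464 : ℕ).testBit i.val

theorem nb_kk (C : Cyc ι) (i j : Fin 9) : nb C (kk i) (kk j) ↔ tb i j = true := by
  fin_cases i <;> fin_cases j <;> simp [nb, kk, tb, Nat.testBit]

theorem nb_kr_true (C : Cyc ι) (i : Fin 9) (t : ι) (ht : C.B t) :
    nb C (kk i) (r t) ↔ tr true i = true := by
  fin_cases i <;> simp [nb, kk, tr, Nat.testBit, ht]

theorem nb_kr_false (C : Cyc ι) (i : Fin 9) (t : ι) (ht : ¬ C.B t) :
    nb C (kk i) (r t) ↔ tr false i = true := by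
  fin_cases i <;> simp [nb, kk, tr, Nat.testBit, ht]

theorem W_cases (w : W ι) : (∃ i : Fin 9, w = kk i) ∨ ∃ t, w = r t := by
  cases w with
  | k0 => exact Or.inl ⟨0, rfl⟩
  | k1 => exact Or.inl ⟨1, rfl⟩
  | k2 => exact Or.inl ⟨2, rfl⟩
  | k3 => exact Or.inl ⟨3, rfl⟩
  | k4 => exact Or.inl ⟨4, rfl⟩
  | k5 => exact Or.inl ⟨5, rfl⟩
  | k6 => exact Or.inl ⟨6, rfl⟩
  | k7 => exact Or.inl ⟨7, rfl⟩
  | k8 => exact Or.inl ⟨8, rfl⟩
  | r t => exact Or.inr ⟨t, rfl⟩

theorem tab3 : ∀ i j k : Fin 9,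
    (∃ u : Fin 9, tb i u = false ∧ tb j u = false ∧ tb k u = false) ∨
    (tr true i = false ∧ tr true j = false ∧ tr true k = false) ∨
    (tr false i = false ∧ tr false j = false ∧ tr false k = false) := by
  decide +kernel

theorem tab2 : ∀ i j : Fin 9, ∀ c : Bool,
    (∃ u : Fin 9, tb i u = false ∧ tb j u = false ∧ tr c u = false) ∨
    (tr true i = false ∧ tr true j = false) ∨
    (tr false i = false ∧ tr false j = false) := by
  decide +kernel

theorem tab1 : ∀ i : Fin 9,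
    (∃ u : Fin 9, tb i u = false ∧ tr true u = false ∧ tr false u = false) := by
  decide +kernel

theorem exB (C : Cyc ι) (hne : Nonempty ι) : ∃ t, C.B t := by
  obtain ⟨i⟩ := hne
  by_cases h : C.B i
  · exact ⟨i, h⟩
  · exact ⟨C.o i, (C.oB i).2 h⟩

theorem exC (C : Cyc ι) (hne : Nonempty ι) : ∃ t, ¬ C.B t := by
  obtain ⟨i⟩ := hne
  by_cases h : C.B i
  · exact ⟨C.o i, fun h' => (C.oB i).1 h' h⟩
  · exact ⟨i, h⟩

/-- a co-neighbour of each colour -/
theorem coB (C : Cyc ι) (t : ι) : ∃ t', C.B t' ∧ ¬ nb C (r t) (r t') := by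
  by_cases h : C.B t
  · exact ⟨C.s t, (C.sB t).2 h, fun h' => h'.1 rfl⟩
  · exact ⟨C.o t, (C.oB t).2 h, fun h' => h'.2 rfl⟩

theorem coC (C : Cyc ι) (t : ι) : ∃ t', ¬ C.B t' ∧ ¬ nb C (r t) (r t') := by
  by_cases h : C.B t
  · exact ⟨C.o t, fun h' => (C.oB t).1 h' h, fun h' => h'.2 rfl⟩
  · exact ⟨C.s t, fun h' => h ((C.sB t).1 h'), fun h' => h'.1 rfl⟩

theorem nb_rk_tr (C : Cyc ι) (t : ι) (u : Fin 9) :
    nb C (r t) (kk u) → (C.B t ∧ tr true u = true) ∨ (¬ C.B t ∧ tr false u = true) := by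
  intro h
  by_cases ht : C.B t
  · exact Or.inl ⟨ht, (nb_kr_true C u t ht).1 (nb_sym C h)⟩
  · exact Or.inr ⟨ht, (nb_kr_false C u t ht).1 (nb_sym C h)⟩

theorem und2 (C : Cyc ι) (i j : Fin 9) (t : ι) :
    ∃ u, ¬ nb C (kk i) u ∧ ¬ nb C (kk j) u ∧ ¬ nb C (r t) u := by
  classical
  rcases tab2 i j (decide (C.B t)) with ⟨u, h1, h2, h3⟩ | ⟨h1, h2⟩ | ⟨h1, h2⟩
  · refine ⟨kk u, ?_, ?_, ?_⟩
    · rw [nb_kk, h1]; decide
    · rw [nb_kk, h2]; decide
    · intro h
      rcases nb_rk_tr C t u h with ⟨h4, h5⟩ | ⟨h4, h5⟩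
      · rw [decide_eq_true h4] at h3; rw [h3] at h5; exact absurd h5 (by decide)
      · rw [decide_eq_false h4] at h3; rw [h3] at h5; exact absurd h5 (by decide)
  · obtain ⟨t', h4, h5⟩ := coB C t
    refine ⟨r t', ?_, ?_, h5⟩
    · rw [nb_kr_true C _ _ h4, h1]; decide
    · rw [nb_kr_true C _ _ h4, h2]; decide
  · obtain ⟨t', h4, h5⟩ := coC C t
    refine ⟨r t', ?_, ?_, h5⟩
    · rw [nb_kr_false C _ _ h4, h1]; decide
    · rw [nb_kr_false C _ _ h4, h2]; decide

theorem und1 (C : Cyc ι) (i : Fin 9) (t t' : ι) :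
    ∃ u, ¬ nb C (kk i) u ∧ ¬ nb C (r t) u ∧ ¬ nb C (r t') u := by
  obtain ⟨u, h1, h2, h3⟩ := tab1 i
  have key : ∀ t, ¬ nb C (r t) (kk u) := by
    intro t h
    rcases nb_rk_tr C t u h with ⟨h4, h5⟩ | ⟨h4, h5⟩
    · rw [h2] at h5; exact absurd h5 (by decide)
    · rw [h3] at h5; exact absurd h5 (by decide)
  exact ⟨kk u, by rw [nb_kk, h1]; decide, key t, key t'⟩

/-- no three vertices dominate the whole graph -/
theorem und (C : Cyc ι) (hne : Nonempty ι) (a b c : W ι) :
    ∃ u, ¬ nb C a u ∧ ¬ nb C b u ∧ ¬ nb C c u := by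
  rcases W_cases a with ⟨i, rfl⟩ | ⟨t, rfl⟩ <;> rcases W_cases b with ⟨j, rfl⟩ | ⟨t', rfl⟩ <;>
    rcases W_cases c with ⟨k, rfl⟩ | ⟨t'', rfl⟩
  · rcases tab3 i j k with ⟨u, h1, h2, h3⟩ | ⟨h1, h2, h3⟩ | ⟨h1, h2, h3⟩
    · refine ⟨kk u, ?_, ?_, ?_⟩
      · rw [nb_kk, h1]; decide
      · rw [nb_kk, h2]; decide
      · rw [nb_kk, h3]; decide
    · obtain ⟨t', h4⟩ := exB C hne
      refine ⟨r t', ?_, ?_, ?_⟩
      · rw [nb_kr_true C _ _ h4, h1]; decide
      · rw [nb_kr_true C _ _ h4, h2]; decide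
      · rw [nb_kr_true C _ _ h4, h3]; decide
    · obtain ⟨t', h4⟩ := exC C hne
      refine ⟨r t', ?_, ?_, ?_⟩
      · rw [nb_kr_false C _ _ h4, h1]; decide
      · rw [nb_kr_false C _ _ h4, h2]; decide
      · rw [nb_kr_false C _ _ h4, h3]; decide
  · obtain ⟨u, h1, h2, h3⟩ := und2 C i j t''
    exact ⟨u, h1, h2, h3⟩
  · obtain ⟨u, h1, h2, h3⟩ := und2 C i k t'
    exact ⟨u, h1, h3, h2⟩
  · obtain ⟨u, h1, h2, h3⟩ := und1 C i t' t''
    exact ⟨u, h1, h2, h3⟩
  · obtain ⟨u, h1, h2, h3⟩ := und2 C j k t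
    exact ⟨u, h3, h1, h2⟩
  · obtain ⟨u, h1, h2, h3⟩ := und1 C j t t''
    exact ⟨u, h2, h1, h3⟩
  · obtain ⟨u, h1, h2, h3⟩ := und1 C k t t'
    exact ⟨u, h2, h3, h1⟩
  · refine ⟨k0, ?_, ?_, ?_⟩ <;> simp [nb]

theorem priv0 (C : Cyc ι) (w : W ι) (h0 : nb C k0 w) (h2 : ¬ nb C k2 w) : w = k6 ∨ w = k3 := by
  cases w <;> first | exact Or.inl rfl | exact Or.inr rfl | exact absurd h0 id | exact absurd trivial h2

theorem priv2 (C : Cyc ι) (w : W ι) (h2 : nb C k2 w) (h0 : ¬ nb C k0 w) (h1 : ¬ nb C k1 w) :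
    w = k5 := by
  cases w <;> first | rfl | exact absurd h2 id | exact absurd trivial h1 | exact absurd trivial h0

theorem priv1 (C : Cyc ι) (w : W ι) (h1 : nb C k1 w) (h0 : ¬ nb C k0 w) (h2 : ¬ nb C k2 w) :
    ∃ t, w = r t := by
  cases w <;> first | exact ⟨_, rfl⟩ | exact absurd h1 id | exact absurd trivial h2 |
    exact absurd trivial h0

/-- annihilation table for the planted set -/
theorem annih (C : Cyc ι) (x : W ι) (hx0 : x ≠ k0) (hx1 : x ≠ k1) (hx2 : x ≠ k2) (hx3 : x ≠ k3) :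
    nb C x k6 ∨ nb C x k5 ∨ ∀ t, nb C x (r t) := by
  cases x with
  | k0 => exact absurd rfl hx0
  | k1 => exact absurd rfl hx1
  | k2 => exact absurd rfl hx2
  | k3 => exact absurd rfl hx3
  | k4 => exact Or.inl trivial
  | k5 => exact Or.inr (Or.inl trivial)
  | k6 => exact Or.inl trivial
  | k7 => exact Or.inr (Or.inr (fun _ => trivial))
  | k8 => exact Or.inr (Or.inl trivial)
  | r t => exact Or.inl trivial

/-- the planted maximal irredundant set -/
theorem planted [DecidableEq ι] (C : Cyc ι) (hne : Nonempty ι)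
    [Fintype (W ι)] :
    MaxIrr (GG C) (Finset.univ : Finset (W ι)) {k0, k1, k2} := by
  have conv : ∀ a b : W ι, (b = a ∨ (GG C).Adj a b) ↔ nb C a b := fun a b => Nb_iff C a b
  refine ⟨Finset.subset_univ _, ?_, ?_⟩
  · intro v hv
    simp only [Finset.mem_insert, Finset.mem_singleton] at hv
    simp only [conv]
    rcases hv with rfl | rfl | rfl
    · refine ⟨k6, Finset.mem_univ _, by simp [nb], ?_⟩
      intro u hu hne
      simp only [Finset.mem_insert, Finset.mem_singleton] at hu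
      rcases hu with rfl | rfl | rfl
      · exact absurd rfl hne
      · simp [nb]
      · simp [nb]
    · obtain ⟨t, ht⟩ := exB C hne
      refine ⟨r t, Finset.mem_univ _, by simpa [nb] using ht, ?_⟩
      intro u hu hne
      simp only [Finset.mem_insert, Finset.mem_singleton] at hu
      rcases hu with rfl | rfl | rfl
      · simp [nb]
      · exact absurd rfl hne
      · simp [nb]
    · refine ⟨k5, Finset.mem_univ _, by simp [nb], ?_⟩
      intro u hu hne
      simp only [Finset.mem_insert, Finset.mem_singleton] at hu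
      rcases hu with rfl | rfl | rfl
      · simp [nb]
      · simp [nb]
      · exact absurd rfl hne
  · intro x _ hx hirr
    simp only [Irr, conv] at hirr
    obtain ⟨w0, _, h0a, h0b⟩ := hirr k0 (by simp)
    obtain ⟨w1, _, h1a, h1b⟩ := hirr k1 (by simp)
    obtain ⟨w2, _, h2a, h2b⟩ := hirr k2 (by simp)
    obtain ⟨w, _, ha, hb⟩ := hirr x (by simp)
    have m0 : (k0 : W ι) ∈ insert x ({k0, k1, k2} : Finset (W ι)) := by simp
    have m1 : (k1 : W ι) ∈ insert x ({k0, k1, k2} : Finset (W ι)) := by simp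
    have m2 : (k2 : W ι) ∈ insert x ({k0, k1, k2} : Finset (W ι)) := by simp
    have mx : x ∈ insert x ({k0, k1, k2} : Finset (W ι)) := by simp
    have hx0 : x ≠ k0 := fun h => hx (by simp [h])
    have hx1 : x ≠ k1 := fun h => hx (by simp [h])
    have hx2 : x ≠ k2 := fun h => hx (by simp [h])
    have b0 := hb k0 m0 (Ne.symm hx0)
    have b1 := hb k1 m1 (Ne.symm hx1)
    have b2 := hb k2 m2 (Ne.symm hx2)
    by_cases hx3 : x = k3
    · subst hx3
      cases w <;> first | exact absurd ha id | exact b0 trivial | exact b1 trivial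
    · rcases annih C x hx0 hx1 hx2 hx3 with h | h | h
      · rcases priv0 C w0 h0a (h0b k2 m2 (by simp)) with rfl | rfl
        · exact h0b x mx hx0 h
        · exact h0b k1 m1 (by simp) trivial
      · have := priv2 C w2 h2a (h2b k0 m0 (by simp)) (h2b k1 m1 (by simp))
        subst this
        exact h2b x mx hx2 h
      · obtain ⟨t, rfl⟩ := priv1 C w1 h1a (h1b k0 m0 (by simp)) (h1b k2 m2 (by simp))
        exact h1b x mx hx1 (h t)

theorem dom_card [DecidableEq ι] (C : Cyc ι) (hne : Nonempty ι)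
    [Fintype (W ι)] (D : Finset (W ι)) (hD : Dom (GG C) Finset.univ D) : 3 < D.card := by
  by_contra hcon
  have hc : D.card ≤ 3 := by omega
  rw [dom_iff] at hD
  have hsub : ∃ a b c : W ι, D ⊆ {a, b, c} := by
    obtain h | h | h | h : D.card = 0 ∨ D.card = 1 ∨ D.card = 2 ∨ D.card = 3 := by omega
    · rw [Finset.card_eq_zero] at h
      exact ⟨k0, k0, k0, by simp [h]⟩
    · rw [Finset.card_eq_one] at h
      obtain ⟨a, rfl⟩ := h
      exact ⟨a, a, a, by simp⟩
    · rw [Finset.card_eq_two] at h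
      obtain ⟨a, b, _, rfl⟩ := h
      exact ⟨a, b, b, by simp⟩
    · rw [Finset.card_eq_three] at h
      obtain ⟨a, b, c, _, _, _, rfl⟩ := h
      exact ⟨a, b, c, Finset.Subset.refl _⟩
  obtain ⟨a, b, c, hs⟩ := hsub
  obtain ⟨u, h1, h2, h3⟩ := und C hne a b c
  obtain ⟨s, hs', hsu⟩ := hD.2 u (Finset.mem_univ _)
  rw [Nb_iff] at hsu
  have := hs hs'
  simp only [Finset.mem_insert, Finset.mem_singleton] at this
  rcases this with rfl | rfl | rfl
  · exact h1 hsu
  · exact h2 hsu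
  · exact h3 hsu

end Irr56

namespace Irr56

open W

/-- partner of the same colour -/
def cs {n : ℕ} : ZMod n × Fin 4 → ZMod n × Fin 4
  | (j, 0) => (j, 1)
  | (j, 1) => (j, 0)
  | (j, 2) => (j, 3)
  | (j, 3) => (j, 2)

/-- partner of the opposite colour -/
def co {n : ℕ} : ZMod n × Fin 4 → ZMod n × Fin 4
  | (j, 0) => (j - 1, 3)
  | (j, 1) => (j, 2)
  | (j, 2) => (j, 1)
  | (j, 3) => (j + 1, 0)

/-- colour B -/
def cB {n : ℕ} : ZMod n × Fin 4 → Prop
  | (_, 0) => True
  | (_, 1) => True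
  | (_, 2) => False
  | (_, 3) => False

theorem forall_pf {n : ℕ} {P : ZMod n × Fin 4 → Prop}
    (h0 : ∀ j, P (j, 0)) (h1 : ∀ j, P (j, 1)) (h2 : ∀ j, P (j, 2)) (h3 : ∀ j, P (j, 3)) :
    ∀ i, P i := by
  rintro ⟨j, i⟩
  fin_cases i
  · exact h0 j
  · exact h1 j
  · exact h2 j
  · exact h3 j

/-- the concrete cyclic structure with `4 * (n + 1)` elements -/
def conc (n : ℕ) : Cyc (ZMod (n + 1) × Fin 4) where
  s := cs
  o := co
  B := cB
  ss := forall_pf (fun _ => rfl) (fun _ => rfl) (fun _ => rfl) (fun _ => rfl)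
  oo := forall_pf (fun j => by simp [co]) (fun _ => rfl) (fun _ => rfl) (fun j => by simp [co])
  sB := forall_pf (fun _ => Iff.rfl) (fun _ => Iff.rfl) (fun _ => Iff.rfl) (fun _ => Iff.rfl)
  oB := forall_pf (fun _ => by simp [co, cB]) (fun _ => by simp [co, cB])
    (fun _ => by simp [co, cB]) (fun _ => by simp [co, cB])
  si := forall_pf (fun _ => by simp [cs]) (fun _ => by simp [cs]) (fun _ => by simp [cs])
    (fun _ => by simp [cs])
  conn := by
    intro P hex hs ho
    have e1 : ∀ j, P (j, 0) → P (j, 1) := fun j h => hs _ h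
    have e2 : ∀ j, P (j, 1) → P (j, 0) := fun j h => hs _ h
    have e3 : ∀ j, P (j, 2) → P (j, 3) := fun j h => hs _ h
    have e4 : ∀ j, P (j, 3) → P (j, 2) := fun j h => hs _ h
    have e5 : ∀ j, P (j, 1) → P (j, 2) := fun j h => ho _ h
    have e6 : ∀ j, P (j, 2) → P (j, 1) := fun j h => ho _ h
    have e7 : ∀ j, P (j, 3) → P (j + 1, 0) := fun j h => ho _ h
    have base : ∃ j, P (j, 0) := by
      obtain ⟨⟨j, i⟩, h⟩ := hex
      refine ⟨j, ?_⟩
      fin_cases i
      · exact h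
      · exact e2 j h
      · exact e2 j (e6 j h)
      · exact e2 j (e6 j (e4 j h))
    obtain ⟨j0, hj0⟩ := base
    have step : ∀ k : ℕ, P (j0 + (k : ZMod (n + 1)), 0) := by
      intro k
      induction k with
      | zero => simpa using hj0
      | succ k ih =>
        have := e7 _ (e3 _ (e5 _ (e1 _ ih)))
        push_cast
        rw [← add_assoc]
        exact this
    have all0 : ∀ j, P (j, 0) := by
      intro j
      have h := step (j - j0).val
      rw [ZMod.natCast_zmod_val, add_sub_cancel] at h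
      exact h
    exact forall_pf all0 (fun j => e1 _ (all0 j)) (fun j => e5 _ (e1 _ (all0 j)))
      (fun j => e3 _ (e5 _ (e1 _ (all0 j))))

/-- the vertex type as a sum -/
def WEquiv (ι : Type) : W ι ≃ Fin 9 ⊕ ι where
  toFun
    | k0 => Sum.inl 0
    | k1 => Sum.inl 1
    | k2 => Sum.inl 2
    | k3 => Sum.inl 3
    | k4 => Sum.inl 4
    | k5 => Sum.inl 5
    | k6 => Sum.inl 6
    | k7 => Sum.inl 7
    | k8 => Sum.inl 8
    | r t => Sum.inr t
  invFun
    | Sum.inl i => kk i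
    | Sum.inr t => r t
  left_inv := by
    intro w
    cases w <;> rfl
  right_inv := by
    rintro (i | t)
    · fin_cases i <;> rfl
    · rfl

instance instFintypeW (ι : Type) [Fintype ι] : Fintype (W ι) :=
  Fintype.ofEquiv _ (WEquiv ι).symm

theorem card_W (ι : Type) [Fintype ι] : Fintype.card (W ι) = 9 + Fintype.card ι := by
  rw [Fintype.card_congr (WEquiv ι), Fintype.card_sum, Fintype.card_fin]

section transport

variable {A V : Type*} [DecidableEq A] [DecidableEq V]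

omit [DecidableEq A] [DecidableEq V] in
theorem nb_comap (G : SimpleGraph V) (e : A ≃ V) (a b : A) :
    Nb (G.comap e) a b ↔ Nb G (e a) (e b) := by
  unfold Nb
  rw [SimpleGraph.comap_adj, e.injective.eq_iff]

omit [DecidableEq A] [DecidableEq V] in
theorem dom_map (G : SimpleGraph V) (e : A ≃ V) (U S : Finset A) :
    Dom (G.comap e) U S ↔ Dom G (U.map e.toEmbedding) (S.map e.toEmbedding) := by
  rw [dom_iff, dom_iff]
  constructor
  · rintro ⟨h1, h2⟩
    refine ⟨Finset.map_subset_map.2 h1, ?_⟩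
    intro v hv
    rw [Finset.mem_map] at hv
    obtain ⟨a, ha, rfl⟩ := hv
    obtain ⟨s, hs, hsa⟩ := h2 a ha
    exact ⟨e s, Finset.mem_map_of_mem _ hs, (nb_comap G e s a).1 hsa⟩
  · rintro ⟨h1, h2⟩
    refine ⟨Finset.map_subset_map.1 h1, ?_⟩
    intro a ha
    obtain ⟨s, hs, hsa⟩ := h2 (e a) (Finset.mem_map_of_mem _ ha)
    rw [Finset.mem_map] at hs
    obtain ⟨s', hs', rfl⟩ := hs
    exact ⟨s', hs', (nb_comap G e s' a).2 hsa⟩

omit [DecidableEq A] [DecidableEq V] in
theorem irr_map (G : SimpleGraph V) (e : A ≃ V) (U S : Finset A) :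
    Irr (G.comap e) U S ↔ Irr G (U.map e.toEmbedding) (S.map e.toEmbedding) := by
  have key : ∀ a b : A, (b = a ∨ (G.comap e).Adj a b) ↔ (e b = e a ∨ G.Adj (e a) (e b)) := by
    intro a b
    rw [SimpleGraph.comap_adj, e.injective.eq_iff]
  unfold Irr
  constructor
  · intro h v hv
    rw [Finset.mem_map] at hv
    obtain ⟨a, ha, rfl⟩ := hv
    obtain ⟨w, hw, hwa, hu⟩ := h a ha
    refine ⟨e w, Finset.mem_map_of_mem _ hw, (key a w).1 hwa, ?_⟩
    intro u hu' hne
    rw [Finset.mem_map] at hu'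
    obtain ⟨b, hb, rfl⟩ := hu'
    have hba : b ≠ a := fun h => hne (by rw [h])
    exact fun hc => hu b hb hba ((key b w).2 hc)
  · intro h a ha
    obtain ⟨w, hw, hwa, hu⟩ := h (e a) (Finset.mem_map_of_mem _ ha)
    rw [Finset.mem_map] at hw
    obtain ⟨w', hw', rfl⟩ := hw
    refine ⟨w', hw', (key a w').2 hwa, ?_⟩
    intro b hb hne hc
    exact hu (e b) (Finset.mem_map_of_mem _ hb) (fun h => hne (e.injective h)) ((key b w').1 hc)

theorem maxIrr_map (G : SimpleGraph V) (e : A ≃ V) (U S : Finset A) :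
    MaxIrr (G.comap e) U S ↔ MaxIrr G (U.map e.toEmbedding) (S.map e.toEmbedding) := by
  unfold MaxIrr
  rw [irr_map, Finset.map_subset_map]
  refine and_congr Iff.rfl (and_congr Iff.rfl ?_)
  constructor
  · intro h x hx hxS
    rw [Finset.mem_map] at hx
    obtain ⟨a, ha, rfl⟩ := hx
    have haS : a ∉ S := fun h => hxS (Finset.mem_map_of_mem _ h)
    have := h a ha haS
    rw [irr_map, Finset.map_insert] at this
    exact this
  · intro h a ha haS
    rw [irr_map, Finset.map_insert]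
    apply h (e a) (Finset.mem_map_of_mem _ ha)
    rw [Finset.mem_map]
    rintro ⟨b, hb, hba⟩
    exact haS (e.injective hba ▸ hb)

theorem good_map (G : SimpleGraph V) (e : A ≃ V) (U : Finset A)
    (h : Good G (U.map e.toEmbedding)) : Good (G.comap e) U := by
  intro X hX
  rw [maxIrr_map] at hX
  obtain ⟨D, hD, hc⟩ := h _ hX
  refine ⟨D.map e.symm.toEmbedding, ?_, ?_⟩
  · rw [dom_map]
    have : (D.map e.symm.toEmbedding).map e.toEmbedding = D := by
      ext x
      simp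
    rw [this]
    exact hD
  · rw [Finset.card_map] at hc ⊢
    exact hc

end transport

/-- final assembly from the goodness of all proper subsets -/
theorem assembly
    (hgood : ∀ n : ℕ, ∀ S : Finset (W (ZMod (n + 1) × Fin 4)), S ⊂ Finset.univ →
      Good (GG (conc n)) S) :
    ¬ (∃ N : ℕ, ∀ n : ℕ, ∀ G : SimpleGraph (Fin n),
      (¬ ∀ U : Finset (Fin n),
          sInf {k : ℕ | ∃ S : Finset (Fin n), S ⊆ U ∧
              (∀ v ∈ S, ∃ w ∈ U, (w = v ∨ G.Adj v w) ∧
                  ∀ u ∈ S, u ≠ v → ¬ (w = u ∨ G.Adj u w)) ∧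
              (∀ x ∈ U, x ∉ S → ¬ ∀ v ∈ insert x S, ∃ w ∈ U, (w = v ∨ G.Adj v w) ∧
                  ∀ u ∈ insert x S, u ≠ v → ¬ (w = u ∨ G.Adj u w)) ∧
              S.card = k}
          = sInf {k : ℕ | ∃ S : Finset (Fin n), S ⊆ U ∧
              (∀ v ∈ U, v ∈ S ∨ ∃ s ∈ S, G.Adj s v) ∧ S.card = k}) ∧
      (∀ U : Finset (Fin n), U ≠ Finset.univ →
          sInf {k : ℕ | ∃ S : Finset (Fin n), S ⊆ U ∧
              (∀ v ∈ S, ∃ w ∈ U, (w = v ∨ G.Adj v w) ∧
                  ∀ u ∈ S, u ≠ v → ¬ (w = u ∨ G.Adj u w)) ∧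
              (∀ x ∈ U, x ∉ S → ¬ ∀ v ∈ insert x S, ∃ w ∈ U, (w = v ∨ G.Adj v w) ∧
                  ∀ u ∈ insert x S, u ≠ v → ¬ (w = u ∨ G.Adj u w)) ∧
              S.card = k}
          = sInf {k : ℕ | ∃ S : Finset (Fin n), S ⊆ U ∧
              (∀ v ∈ U, v ∈ S ∨ ∃ s ∈ S, G.Adj s v) ∧ S.card = k})
      → n ≤ N) := by
  rintro ⟨N, hN⟩
  have hcard : Fintype.card (W (ZMod (N + 1) × Fin 4)) = 9 + (N + 1) * 4 := by
    rw [card_W, Fintype.card_prod, ZMod.card, Fintype.card_fin]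
  obtain ⟨e⟩ : Nonempty (Fin (9 + (N + 1) * 4) ≃ W (ZMod (N + 1) × Fin 4)) := by
    rw [← hcard]
    exact ⟨(Fintype.equivFin _).symm⟩
  have h := hN (9 + (N + 1) * 4) ((GG (conc N)).comap e) ⟨?_, ?_⟩
  · omega
  · intro hall
    have hpl := planted (conc N) ⟨(0, 0)⟩
    have hdc := dom_card (conc N) ⟨(0, 0)⟩
    have hX : MaxIrr ((GG (conc N)).comap e) Finset.univ
        (({k0, k1, k2} : Finset (W (ZMod (N + 1) × Fin 4))).map e.symm.toEmbedding) := by
      rw [maxIrr_map]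
      have h1 : (Finset.map e.symm.toEmbedding
          ({k0, k1, k2} : Finset (W (ZMod (N + 1) × Fin 4)))).map e.toEmbedding =
          {k0, k1, k2} := by
        ext x
        simp
      have h2 : (Finset.univ : Finset (Fin (9 + (N + 1) * 4))).map e.toEmbedding =
          Finset.univ := by
        ext x
        simp
      rw [h1, h2]
      exact hpl
    refine ne_of_bad hX ?_ (hall Finset.univ)
    intro D hD
    rw [dom_map] at hD
    have h2 : (Finset.univ : Finset (Fin (9 + (N + 1) * 4))).map e.toEmbedding =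
        Finset.univ := by
      ext x
      simp
    rw [h2] at hD
    have h3 := hdc _ hD
    rw [Finset.card_map] at h3 ⊢
    have h4 : ({k0, k1, k2} : Finset (W (ZMod (N + 1) × Fin 4))).card ≤ 3 :=
      Finset.card_le_three
    omega
  · intro U hU
    apply eq_of_good
    apply good_map
    apply hgood N
    rw [Finset.ssubset_univ_iff]
    intro hc
    apply hU
    rw [Finset.eq_univ_iff_forall] at hc ⊢
    intro a
    have := hc (e a)
    rw [Finset.mem_map] at this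
    obtain ⟨b, hb, hba⟩ := this
    exact e.injective hba ▸ hb

end Irr56
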