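import Pool.Agent.Lib.MP_b725e3_co.A1_Base

set_option autoImplicit false

namespace Irr56

open W

variable {ι : Type} {C : Cyc ι} {S : W ι → Prop} {a b c : W ι}

/-- `t` is a cyclic neighbour of `i`; nothing is a cyclic neighbour of both -/
theorem Cyc.near2 (C : Cyc ι) {i t w : ι} (h1 : t = C.s i ∨ t = C.o i)
    (h2 : w = C.s i ∨ w = C.o i) (h3 : w = C.s t ∨ w = C.o t) : False := by
  have a1 := C.ss i; have a2 := C.oo i; have a3 := C.si i; have a4 := C.oi i; have a5 := C.so i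
  have a6 := C.oo t; have a7 := C.si t; have a8 := C.oi t; have a9 := C.so t; have a10 := C.ss t
  have a11 := C.sB i; have a12 := C.oB i; have a13 := C.sB t; have a14 := C.oB t
  have a15 := C.sB w; have a16 := C.oB w; have a17 := C.ss w; have a18 := C.oo w
  grind

theorem Hyp.A1 (h : Hyp C S a b c) (h2 : S k2) (i : ι) (hi : S (r i)) : S k3 := by
  by_contra h3
  have e1 := h.D k2 (r i) (r i) h2 hi hi
  simp [ex_W, nb, h3] at e1
  obtain ⟨t, ht, e1⟩ := e1
  by_cases e2 : t = C.s i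
  · have e3 := h.D k2 (r i) (r t) h2 hi ht
    simp [ex_W, nb, h3] at e3
    obtain ⟨w, hw, e3, e4⟩ := e3
    exact C.near2 (or_iff_not_imp_left.2 e1) (or_iff_not_imp_left.2 e3) (or_iff_not_imp_left.2 e4)
  · have e2' := e1 e2
    have e3 := h.D k2 (r i) (r t) h2 hi ht
    simp [ex_W, nb, h3] at e3
    obtain ⟨w, hw, e3, e4⟩ := e3
    exact C.near2 (or_iff_not_imp_left.2 e1) (or_iff_not_imp_left.2 e3) (or_iff_not_imp_left.2 e4)

theorem kd_026 (h : Hyp C S k0 k2 k6) : False := by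
  have ic := h.ic
  simp [ex_W, nb] at ic
  obtain ⟨i, hi⟩ := ic
  have := h.F (r i) hi
  simp [ex_W, nb] at this

theorem kd_124 (h : Hyp C S k1 k2 k4) : False := by
  have ia := h.ia
  simp [ex_W, nb] at ia
  obtain ⟨i, hi, _⟩ := ia
  have := h.F (r i) hi
  simp [ex_W, nb] at this
  obtain ⟨t, ht⟩ := this
  tauto

theorem kd_134 (h : Hyp C S k1 k3 k4) : False := by
  have ia := h.ia
  have ib := h.ib
  have ic := h.ic
  simp [ex_W, nb] at ia ib ic
  obtain ⟨i, hi, hBi⟩ := ia
  have e1 := h.F (r i) hi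
  simp [ex_W, nb] at e1
  have h5 : S k5 := by
    rcases e1 with e1 | ⟨t, ht⟩
    · exact e1
    · tauto
  have e2 := h.an' k5 h5
  simp [all_W, nb] at e2
  grind

theorem kd_025 (h : Hyp C S k0 k2 k5) : False := by
  have ia := h.ia
  have ib := h.ib
  have ic := h.ic
  simp [ex_W, nb] at ia ib ic
  have e1 := h.F k8 ic
  simp [ex_W, nb] at e1
  have e2 := h.an' k7 e1
  simp [all_W, nb] at e2
  grind

theorem kd_125 (h : Hyp C S k1 k2 k5) : False := by
  have ia := h.ia
  have ib := h.ib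
  have ic := h.ic
  simp [ex_W, nb] at ia ib ic
  have e1 := h.F k8 ic
  simp [ex_W, nb] at e1
  by_cases h7 : S k7
  · have e2 := h.an' k7 h7
    simp [all_W, nb] at e2
    have e3 := h.A1 h.hb
    grind
  · have e2 := h.D k1 k6 k8 h.ha (by tauto) ic
    simp [ex_W, nb] at e2
    tauto

theorem kd_245 (h : Hyp C S k2 k4 k5) : False := by
  have ia := h.ia
  have ib := h.ib
  have ic := h.ic
  simp [ex_W, nb] at ia ib ic
  have e1 := h.F k8 ic
  simp [ex_W, nb] at e1
  have e2 := h.an' k7 e1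
  simp [all_W, nb] at e2
  have e3 := h.A1 h.ha
  grind

theorem kd_246 (h : Hyp C S k2 k4 k6) : False := by
  have ic := h.ic
  simp [ex_W, nb] at ic
  obtain ⟨i, hi, hBi⟩ := ic
  have e1 := h.F (r i) hi
  simp [ex_W, nb] at e1

/-- closure: `D = {1,2,r}` -/
theorem Hyp.co (h : Hyp C S a b c) (h1 : S k1) (h2 : S k2) (i : ι) (hi : S (r i)) :
    (C.B i → S (r (C.o i))) ∧ (¬ C.B i → S (r (C.s i))) := by
  have e1 := h.D k1 k2 (r i) h1 h2 hi
  simp [ex_W, nb] at e1
  obtain ⟨t, ht, hBt, e1⟩ := e1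
  have := C.sB i; have := C.oB i
  replace e1 := or_iff_not_imp_left.2 e1
  constructor <;> intro hb <;> grind

/-- closure: `D = {2,4,r}` -/
theorem Hyp.co' (h : Hyp C S a b c) (h2 : S k2) (h4 : S k4) (i : ι) (hi : S (r i)) :
    (C.B i → S (r (C.s i))) ∧ (¬ C.B i → S (r (C.o i))) := by
  have e1 := h.D k2 k4 (r i) h2 h4 hi
  simp [ex_W, nb] at e1
  obtain ⟨t, ht, hBt, e1⟩ := e1
  have := C.sB i; have := C.oB i
  replace e1 := or_iff_not_imp_left.2 e1
  constructor <;> intro hb <;> grind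

theorem kd_036 (h : Hyp C S k0 k3 k6) : False := by
  have ia := h.ia
  have ib := h.ib
  have ic := h.ic
  simp [ex_W, nb] at ia ib ic
  obtain ⟨i, hi⟩ := ic
  obtain ⟨j, hj, hBj⟩ : ∃ j, S (r j) ∧ ¬ C.B j := by
    by_cases hB : C.B i
    · exact ⟨C.o i, (h.co ib ia i hi).1 hB, by rw [C.oB]; tauto⟩
    · exact ⟨i, hi, hB⟩
  have hsj := (h.co ib ia j hj).2 hBj
  have e1 := h.F (r j) hj
  simp [ex_W, nb] at e1
  have e2 := h.F k5 e1
  simp [ex_W, nb] at e2
  have e3 := h.an (r j) hj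
  have e4 := e3 (by simp) (by simp) (by simp) k7 e2
  simp [all_W, nb] at e4
  grind

theorem kd_012 (h : Hyp C S k0 k1 k2) : ∀ w, S w := by
  have h0 := h.ha
  have h1 := h.hb
  have h2 := h.hc
  have ia := h.ia
  have ib := h.ib
  have ic := h.ic
  simp [ex_W, nb] at ia ib ic
  obtain ⟨i, hi, hBi⟩ := ib
  have h7 : S k7 := by
    have := h.D k1 k5 k6 h1 ic ia
    simp [ex_W, nb] at this
    exact this
  have h8 : S k8 := by
    have := h.D k0 k2 k7 h0 h2 h7
    simp [ex_W, nb] at this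
    exact this
  have h3 : S k3 := h.A1 h2 i hi
  have h4 : S k4 := by
    have := h.D k0 k8 (r i) h0 h8 hi
    simp [ex_W, nb] at this
    grind
  have hall : ∀ t, S (r t) := by
    apply C.conn (fun t => S (r t)) ⟨i, hi⟩
    · intro t ht
      by_cases hB : C.B t
      · exact (h.co' h2 h4 t ht).1 hB
      · exact (h.co h1 h2 t ht).2 hB
    · intro t ht
      by_cases hB : C.B t
      · exact (h.co h1 h2 t ht).1 hB
      · exact (h.co' h2 h4 t ht).2 hB
  rw [all_W]
  exact ⟨h0, h1, h2, h3, h4, ic, ia, h7, h8, hall⟩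

/-! one vertex on the cycle -/

theorem kd_68r (i : ι) (h : Hyp C S k6 k8 (r i)) : False := by
  have ia := h.ia
  simp [ex_W, nb] at ia
  have e1 := h.F k1
  simp [ex_W, nb] at e1
  rcases ia with h0 | ⟨h4, _⟩
  · have e2 := h.F k0 h0
    simp [ex_W, nb] at e2
    grind
  · have e2 := h.F k4 h4
    simp [ex_W, nb] at e2

theorem kd_16b (i : ι) (h : Hyp C S k1 k6 (r i)) (hB : C.B i) : False := by
  have e1 := h.F k1 h.ha
  simp [ex_W, nb, hB] at e1
  have e2 := h.F k5 e1
  simp [ex_W, nb, hB] at e2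

theorem kd_46r (i : ι) (h : Hyp C S k4 k6 (r i)) : False := by
  have e1 := h.F k4 h.ha
  simp [ex_W, nb] at e1
  have e2 := h.F k5 e1
  simp [ex_W, nb] at e2

theorem kd_17b (i : ι) (h : Hyp C S k1 k7 (r i)) (hB : C.B i) : False := by
  have h1 := h.ha
  have hi := h.hc
  have ia := h.ia
  have ib := h.ib
  have ic := h.ic
  simp [ex_W, nb, hB] at ia ib ic
  have e1 := h.F k1 h.ha
  have e5 := h.F k5
  have e0 := h.F k0
  have e2 := h.F k2
  simp [ex_W, nb, hB] at e1 e5 e0 e2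
  have h0 : S k0 := by tauto
  have h5 : S k5 := by tauto
  have a0 := h.an' k0 h0
  have a5 := h.an' k5 h5
  simp [all_W, nb, hB] at a0 a5
  have d := h.D k8 k3 (r i)
  simp [ex_W, nb, hB] at d
  grind

theorem kd_18b (i : ι) (h : Hyp C S k1 k8 (r i)) (hB : C.B i) : False := by
  have e1 := h.F k1 h.ha
  simp [ex_W, nb, hB] at e1
  have e2 := h.F k0 e1
  simp [ex_W, nb, hB] at e2

theorem kd_47c (i : ι) (h : Hyp C S k4 k7 (r i)) (hB : ¬ C.B i) : False := by
  have h1 := h.ha
  have hi := h.hc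
  have ia := h.ia
  have ib := h.ib
  have ic := h.ic
  simp [ex_W, nb, hB] at ia ib ic
  have e1 := h.F k4 h.ha
  have e5 := h.F k5
  have e0 := h.F k0
  have e2 := h.F k2
  simp [ex_W, nb, hB] at e1 e5 e0 e2
  have h0 : S k0 := by tauto
  have h5 : S k5 := by tauto
  have a0 := h.an' k0 h0
  have a5 := h.an' k5 h5
  simp [all_W, nb, hB] at a0 a5
  have d := h.D k8 k3 (r i)
  simp [ex_W, nb, hB] at d
  grind

theorem kd_48c (i : ι) (h : Hyp C S k4 k8 (r i)) (hB : ¬ C.B i) : False := by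
  have e1 := h.F k4 h.ha
  simp [ex_W, nb, hB] at e1
  have e2 := h.F k0 e1
  simp [ex_W, nb, hB] at e2

theorem kd_06r (i : ι) (h : Hyp C S k0 k6 (r i)) : False := by
  have h0 := h.ha
  have h6 := h.hb
  have hi := h.hc
  have ia := h.ia
  have ib := h.ib
  have ic := h.ic
  have e0 := h.F k0 h.ha
  have e1 := h.F k1
  have e5 := h.F k5
  have e2 := h.F k2
  simp [ex_W, nb] at ia ib ic e0 e1 e5 e2
  have h5 : S k5 := by tauto
  have hB : ¬ C.B i := by tauto
  have a5 := h.an' k5 h5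
  have d := h.D k1 k6 k8
  simp [all_W, ex_W, nb] at a5 d
  grind

theorem kd_58r (i : ι) (h : Hyp C S k5 k8 (r i)) : False := by
  have ia := h.ia
  simp [ex_W, nb] at ia
  have e2 := h.F k2 ia
  simp [ex_W, nb] at e2
  have e3 := h.F k3 e2
  simp [ex_W, nb] at e3

end Irr56

namespace Irr56

open W

variable {ι : Type} {C : Cyc ι} {S : W ι → Prop} {a b c : W ι}

theorem kd_12b (i : ι) (h : Hyp C S k1 k2 (r i)) (hB : C.B i) : False := by
  have e1 := h.F k1 h.ha
  simp [ex_W, nb, hB] at e1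
  obtain ⟨t, ht, hBt, e1, _⟩ := e1
  have e2 := h.F (r t) ht
  simp [ex_W, nb, hB] at e2
  obtain ⟨w, hw, hBw, e2, e3⟩ := e2
  exact C.near2 (or_iff_not_imp_left.2 e1) (or_iff_not_imp_left.2 e2) (or_iff_not_imp_left.2 e3)

theorem kd_24c (i : ι) (h : Hyp C S k2 k4 (r i)) (hB : ¬ C.B i) : False := by
  have e1 := h.F k4 h.hb
  simp [ex_W, nb, hB] at e1
  obtain ⟨t, ht, hBt, e1, _⟩ := e1
  have e2 := h.F (r t) ht
  simp [ex_W, nb, hB] at e2
  obtain ⟨w, hw, hBw, e2, e3⟩ := e2
  exact C.near2 (or_iff_not_imp_left.2 e1) (or_iff_not_imp_left.2 e2) (or_iff_not_imp_left.2 e3)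

theorem kd_14r (i : ι) (h : Hyp C S k1 k4 (r i)) : False := by
  have ia := h.ia
  have ib := h.ib
  have ic := h.ic
  have e1 := h.F k1 h.ha
  have e5 := h.F k5
  have e0 := h.F k0
  have e2 := h.F k2
  simp [ex_W, nb] at ia ib ic e1 e5 e0 e2
  have h0 : S k0 := by
    by_cases h5 : S k5
    · rcases e5 h5 with e | e
      · exact e
      · obtain ⟨t, ht⟩ := e; tauto
    · rcases e1 with e | e | ⟨t, ht⟩
      · exact e
      · tauto
      · tauto
  have h5 : S k5 := by
    rcases e0 h0 with e | e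
    · exact e
    · obtain ⟨t, ht⟩ := e; tauto
  have a0 := h.an' k0 h0
  have a5 := h.an' k5 h5
  simp [all_W, nb] at a0 a5
  grind

/-- the opposite cyclic neighbour, as the unique cyclic neighbour of another colour -/
theorem Cyc.eq_o (C : Cyc ι) {i t : ι} (h1 : ¬ t = C.s i → t = C.o i) (h2 : ¬ (C.B t ↔ C.B i)) :
    t = C.o i := by
  have := C.sB i
  by_cases h : t = C.s i
  · subst h; tauto
  · exact h1 h

theorem Cyc.eq_s (C : Cyc ι) {i t : ι} (h1 : ¬ t = C.s i → t = C.o i) (h2 : C.B t ↔ C.B i) :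
    t = C.s i := by
  have := C.oB i
  by_contra h
  have h3 := h1 h
  subst h3; tauto

theorem Cyc.o_eq (C : Cyc ι) {i t : ι} : t = C.o i ↔ i = C.o t :=
  ⟨fun h => by rw [h, C.oo], fun h => by rw [h, C.oo]⟩

theorem Cyc.s_eq (C : Cyc ι) {i t : ι} : t = C.s i ↔ i = C.s t :=
  ⟨fun h => by rw [h, C.ss], fun h => by rw [h, C.ss]⟩

theorem kd_13b (i : ι) (h : Hyp C S k1 k3 (r i)) (hB : C.B i) : False := by
  have h1 := h.ha
  have h3 := h.hb
  have hi := h.hc
  have ia := h.ia
  have ib := h.ib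
  have ic := h.ic
  have e1 := h.F k1 h.ha
  have e5 := h.F k5
  have e8 := h.F k8
  simp [ex_W, nb, hB] at ia ib ic e1 e5 e8
  have ho : ∃ t, S (r t) ∧ ¬C.B t ∧ t = C.o i := by
    have : ∃ t, S (r t) ∧ ¬C.B t ∧ (¬t = C.s i → t = C.o i) := by
      rcases e1 with e | ⟨t, ht, hBt, e, _⟩
      · exact e5 e
      · exact ⟨t, ht, hBt, e⟩
    obtain ⟨t, ht, hBt, e⟩ := this
    exact ⟨t, ht, hBt, C.eq_o e (fun hh => hBt (hh.2 hB))⟩
  obtain ⟨j, hj, hBj, ej⟩ := ho
  have h5 : S k5 := by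
    by_contra h5
    have e2 := h.F (r j) hj
    simp [ex_W, nb, hB, h5] at e2
    obtain ⟨w, hw, hBw, e3, e4⟩ := e2
    exact C.near2 (Or.inr ej) (or_iff_not_imp_left.2 e3)
      (or_iff_not_imp_left.2 e4)
  have a5 := h.an' k5 h5
  simp [all_W, nb, hB] at a5
  have hij : i = C.o j := C.o_eq.1 ej
  have ao := h.an' (r j) hj (by simp [nb, hBj]) (by simp [nb]) (by simp [nb, ej])
  simp [all_W, nb, hB, hBj] at ao
  have d := h.D k1 k2 (r j) h1
  simp [ex_W, nb, hB, hBj, hj] at d
  have f1 := C.sB j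
  have f2 : ¬ C.s j = C.s i := fun e => hBj (f1.1 (by rw [e]; exact (C.sB i).2 hB))
  have f3 : ¬ C.s j = C.o i := by
    rw [← ej]; exact C.si j
  have h2 : S k2 := by grind
  obtain ⟨t, ht, hBt, et⟩ := d h2
  have et' : t = C.s j := C.eq_s et (iff_of_false hBt hBj)
  subst et'
  grind

theorem kd_34c (i : ι) (h : Hyp C S k3 k4 (r i)) (hB : ¬ C.B i) : False := by
  have h3 := h.ha
  have h4 := h.hb
  have hi := h.hc
  have ia := h.ia
  have ib := h.ib
  have ic := h.ic
  have e1 := h.F k4 h.hb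
  have e5 := h.F k5
  have e8 := h.F k8
  simp [ex_W, nb, hB] at ia ib ic e1 e5 e8
  have ho : ∃ t, S (r t) ∧ C.B t ∧ t = C.o i := by
    have : ∃ t, S (r t) ∧ C.B t ∧ (¬t = C.s i → t = C.o i) := by
      rcases e1 with e | ⟨t, ht, hBt, e, _⟩
      · exact e5 e
      · exact ⟨t, ht, hBt, e⟩
    obtain ⟨t, ht, hBt, e⟩ := this
    exact ⟨t, ht, hBt, C.eq_o e (fun hh => hB (hh.1 hBt))⟩
  obtain ⟨j, hj, hBj, ej⟩ := ho
  have h5 : S k5 := by
    by_contra h5
    have e2 := h.F (r j) hj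
    simp [ex_W, nb, hB, h5] at e2
    obtain ⟨w, hw, hBw, e3, e4⟩ := e2
    exact C.near2 (Or.inr ej) (or_iff_not_imp_left.2 e3)
      (or_iff_not_imp_left.2 e4)
  have a5 := h.an' k5 h5
  simp [all_W, nb, hB] at a5
  have hij : i = C.o j := C.o_eq.1 ej
  have ao := h.an' (r j) hj (by simp [nb]) (by simp [nb, hBj]) (by simp [nb, ej])
  simp [all_W, nb, hB, hBj] at ao
  have d := h.D k2 k4 (r j)
  simp [ex_W, nb, hB, hBj, hj, h4] at d
  have f1 := C.sB j
  have f2 : ¬ C.s j = C.s i := fun e => hB ((C.sB i).1 (by rw [← e]; exact f1.2 hBj))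
  have f3 : ¬ C.s j = C.o i := by
    rw [← ej]; exact C.si j
  have h2 : S k2 := by grind
  obtain ⟨t, ht, hBt, et⟩ := d h2
  have et' : t = C.s j := C.eq_s et (iff_of_true hBt hBj)
  subst et'
  grind

end Irr56

namespace Irr56

open W

variable {ι : Type} {C : Cyc ι} {S : W ι → Prop} {a b c : W ι}

/-! two or three vertices on the cycle -/

/-- a common cyclic neighbour of two different vertices forces different colours -/
theorem Cyc.mid (C : Cyc ι) {i j t : ι} (hij : i ≠ j) (h1 : ¬ t = C.s i → t = C.o i)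
    (h2 : ¬ t = C.s j → t = C.o j) : ¬ (C.B i ↔ C.B j) := by
  have a1 := C.ss i; have a2 := C.oo i; have a3 := C.ss j; have a4 := C.oo j
  have a11 := C.sB i; have a12 := C.oB i; have a13 := C.sB j; have a14 := C.oB j
  replace h1 := or_iff_not_imp_left.2 h1
  replace h2 := or_iff_not_imp_left.2 h2
  intro h3
  rcases h1 with h1 | h1 <;> rcases h2 with h2 | h2
  · apply hij; rw [← a1, ← a3, ← h1, ← h2]
  · rw [h1] at h2; rw [← h2, a11] at a14; tauto
  · rw [h1] at h2; rw [← h2, a12] at a13; tauto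
  · apply hij; rw [← a2, ← a4, ← h1, ← h2]

theorem kd_6rr (i j : ι) (h : Hyp C S k6 (r i) (r j)) : False := by
  have ib := h.ib
  have ic := h.ic
  simp [ex_W, nb] at ib ic
  tauto

theorem kd_7rr (i j : ι) (hij : i ≠ j) (h : Hyp C S k7 (r i) (r j)) : False := by
  have ia := h.ia
  have ib := h.ib
  have ic := h.ic
  have e1 := h.F k1
  have a0 := h.an' k0
  have a5 := h.an' k5
  have hm := fun t => C.mid (t := t) hij
  simp [ex_W, all_W, nb] at ia ib ic e1 a0 a5
  grind

theorem kd_8rr (i j : ι) (hij : i ≠ j) (h : Hyp C S k8 (r i) (r j)) : False := by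
  have ia := h.ia
  have ib := h.ib
  have ic := h.ic
  have e1 := h.F k1
  have a0 := h.an' k0
  have a5 := h.an' k5
  have hm := fun t => C.mid (t := t) hij
  simp [ex_W, all_W, nb] at ia ib ic e1 a0 a5
  grind

/-- if `t` is a common cyclic neighbour of `i` and `j`, of a colour other than `j`, then every
other cyclic neighbour of `j` of the colour of `t` is a cyclic neighbour of `i` -/
theorem Cyc.noW (C : Cyc ι) {i j t t1 : ι} (h1 : ¬t = C.s i → t = C.o i)
    (h2 : ¬t = C.s j → t = C.o j) (hj : ¬ (C.B t ↔ C.B j))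
    (n : ¬t1 = C.s i ∧ ¬t1 = C.o i) (hB1 : ¬ (C.B t1 ↔ C.B j))
    (c1 : ¬t1 = C.s j → t1 = C.o j) : False := by
  have e1 := C.eq_o h2 hj
  have e2 := C.eq_o c1 hB1
  rw [← e1] at e2
  subst e2
  exact n.2 (h1 n.1)

theorem kd_1rr (i j : ι) (hij : i ≠ j) (hB : C.B i ∨ C.B j) (h : Hyp C S k1 (r i) (r j)) :
    False := by
  have ia := h.ia
  have ib := h.ib
  have ic := h.ic
  simp [ex_W, nb] at ia ib ic
  have hno : ∀ t, S (r t) → ¬ C.B t → (¬t = C.s i → t = C.o i) → (¬t = C.s j → t = C.o j) →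
      False := by
    intro t ht hBt h1 h2
    have hm := C.mid hij h1 h2
    obtain ⟨t1, ht1, n1, hB1, c1⟩ := ib
    obtain ⟨t2, ht2, n2, hB2, c2⟩ := ic
    clear ia h hij
    by_cases hj : C.B j
    · exact C.noW h1 h2 (by simp [hBt, hj]) n1 (by simp [hB1, hj]) c1
    · have hi : C.B i := by simpa [hj] using hB
      exact C.noW h2 h1 (by simp [hBt, hi]) n2 (by simp [hB2, hi]) c2
  have e1 := h.F k1 h.ha
  have e0 := h.F k0
  have e2 := h.F k2
  have e5 := h.F k5
  have a5 := h.an' k5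
  simp [ex_W, all_W, nb] at e1 e0 e2 e5 a5
  have h05 : S k0 ∨ S k5 := by
    rcases e1 with e | e | ⟨t, ht, hBt, e, e', _⟩
    · exact Or.inl e
    · exact Or.inr e
    · exact (hno t ht hBt e e').elim
  have h0 : S k0 := by
    rcases h05 with e | e
    · exact e
    · rcases e5 e with e | ⟨t, ht, hBt, e, e'⟩
      · exact e
      · exact (hno t ht hBt e e').elim
  have h5 : S k5 := by
    rcases e0 h0 with e | ⟨t, ht, hBt, e, e'⟩
    · exact e
    · exact (hno t ht hBt e e').elim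
  have h2 : ¬ S k2 := by
    intro h2
    obtain ⟨t, ht, hBt, e, e'⟩ := e2 h2
    exact hno t ht hBt e e'
  have a5' := a5 h5
  clear a5 e0 e1 e2 e5
  obtain ⟨t1, ht1, n1, hB1, c1⟩ := ib
  obtain ⟨t2, ht2, n2, hB2, c2⟩ := ic
  rcases a5' with ⟨a1, a2, a3, a4⟩ | a5' | a5'
  · rcases ia with ⟨ia, ia1, ia2⟩ | ia | ia | ⟨ia, ia1, ia2⟩ | ⟨t, ht, hBt, e, e'⟩
    · exact ia2 (a1 ia ia1)
    · exact h2 ia
    · exact a2 ia
    · exact a3 ia ia1 ia2
    · have := a4 t ht hBt e
      exact this.2 (e' this.1)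
  · have := a5' t1 ht1 n1.1 n1.2 hB1
    exact this.2 (c1 this.1)
  · have := a5' t2 ht2 n2.1 n2.2 hB2
    exact this.2 (c2 this.1)

theorem kd_4rr (i j : ι) (hij : i ≠ j) (hB : ¬ C.B i ∨ ¬ C.B j) (h : Hyp C S k4 (r i) (r j)) :
    False := by
  have ia := h.ia
  have ib := h.ib
  have ic := h.ic
  simp [ex_W, nb] at ia ib ic
  have hno : ∀ t, S (r t) → C.B t → (¬t = C.s i → t = C.o i) → (¬t = C.s j → t = C.o j) →
      False := by
    intro t ht hBt h1 h2
    have hm := C.mid hij h1 h2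
    obtain ⟨t1, ht1, n1, hB1, c1⟩ := ib
    obtain ⟨t2, ht2, n2, hB2, c2⟩ := ic
    clear ia h hij
    by_cases hj : C.B j
    · have hi : ¬ C.B i := by simpa [hj] using hB
      exact C.noW h2 h1 (by simp [hBt, hi]) n2 (by simp [hB2, hi]) c2
    · exact C.noW h1 h2 (by simp [hBt, hj]) n1 (by simp [hB1, hj]) c1
  have e1 := h.F k4 h.ha
  have e0 := h.F k0
  have e2 := h.F k2
  have e5 := h.F k5
  have a5 := h.an' k5
  simp [ex_W, all_W, nb] at e1 e0 e2 e5 a5
  have h05 : S k0 ∨ S k5 := by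
    rcases e1 with e | e | ⟨t, ht, hBt, e, e', _⟩
    · exact Or.inl e
    · exact Or.inr e
    · exact (hno t ht hBt e e').elim
  have h0 : S k0 := by
    rcases h05 with e | e
    · exact e
    · rcases e5 e with e | ⟨t, ht, hBt, e, e'⟩
      · exact e
      · exact (hno t ht hBt e e').elim
  have h5 : S k5 := by
    rcases e0 h0 with e | ⟨t, ht, hBt, e, e'⟩
    · exact e
    · exact (hno t ht hBt e e').elim
  have h2 : ¬ S k2 := by
    intro h2
    obtain ⟨t, ht, hBt, e, e'⟩ := e2 h2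
    exact hno t ht hBt e e'
  have a5' := a5 h5
  clear a5 e0 e1 e2 e5
  obtain ⟨t1, ht1, n1, hB1, c1⟩ := ib
  obtain ⟨t2, ht2, n2, hB2, c2⟩ := ic
  rcases a5' with ⟨a1, a2, a3, a4⟩ | a5' | a5'
  · rcases ia with ⟨ia, ia1, ia2⟩ | ia | ia | ⟨ia, ia1, ia2⟩ | ⟨t, ht, hBt, e, e'⟩
    · exact ia2 (a1 ia ia1)
    · exact h2 ia
    · exact a2 ia
    · exact a3 ia ia1 ia2
    · have := a4 t ht hBt e
      exact this.2 (e' this.1)
  · have := a5' t1 ht1 n1.1 n1.2 hB1
    exact this.2 (c1 this.1)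
  · have := a5' t2 ht2 n2.1 n2.2 hB2
    exact this.2 (c2 this.1)

theorem kd_rrr_aux (i j l : ι) (hij : i ≠ j) (hil : i ≠ l) (hjl : j ≠ l)
    (hc : C.B j ↔ C.B l) (h : Hyp C S (r i) (r j) (r l)) : False := by
  have ia := h.ia
  have ib := h.ib
  have ic := h.ic
  have hm3 : ∀ t, (¬t = C.s j → t = C.o j) → (¬t = C.s l → t = C.o l) → False :=
    fun t h1 h2 => C.mid hjl h1 h2 hc
  simp [ex_W, nb] at ia ib ic
  have e1 := h.F k1
  have e4 := h.F k4
  have a0 := h.an' k0
  have a5 := h.an' k5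
  simp [ex_W, all_W, nb] at e1 e4 a0 a5
  have hia : (S k1 ∧ C.B i ∧ ¬C.B j ∧ ¬C.B l) ∨ (S k4 ∧ ¬C.B i ∧ C.B j ∧ C.B l) := by
    rcases ia with e | e | ⟨t, ht, e1, e2, e3⟩
    · exact Or.inl e
    · exact Or.inr e
    · exact (hm3 t e2 e3).elim
  clear ia
  rcases hia with ⟨g1, gi, gj, gl⟩ | ⟨g1, gi, gj, gl⟩
  · clear e4
    simp only [gi, gj, gl] at ib ic a0 a5
    simp at ib ic a0 a5
    obtain ⟨t1, ht1, n1, m1, c1⟩ := ib
    obtain ⟨t2, ht2, n2, m2, c2⟩ := ic
    rcases e1 g1 with h0 | h5 | ⟨t, ht, _, f1, f2, _⟩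
    · rcases a0 h0 with ⟨a, _⟩ | a | a
      · exact a g1
      · have := a t1 ht1 n1.1 n1.2 m1
        exact this.2 (c1 this.1)
      · have := a t2 ht2 n2.1 n2.2 m2
        exact this.2 (c2 this.1)
    · rcases a5 h5 with ⟨a, _⟩ | a | a
      · exact a g1
      · have := a t1 ht1 n1.1 n1.2 m1
        exact this.2 (c1 this.1)
      · have := a t2 ht2 n2.1 n2.2 m2
        exact this.2 (c2 this.1)
    · exact hm3 t f1 f2
  · clear e1
    simp only [gi, gj, gl] at ib ic a0 a5
    simp at ib ic a0 a5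
    obtain ⟨t1, ht1, n1, m1, c1⟩ := ib
    obtain ⟨t2, ht2, n2, m2, c2⟩ := ic
    rcases e4 g1 with h0 | h5 | ⟨t, ht, _, f1, f2, _⟩
    · rcases a0 h0 with ⟨a, _⟩ | a | a
      · exact a g1
      · have := a t1 ht1 n1.1 n1.2 m1
        exact this.2 (c1 this.1)
      · have := a t2 ht2 n2.1 n2.2 m2
        exact this.2 (c2 this.1)
    · rcases a5 h5 with ⟨a, _⟩ | a | a
      · exact a g1
      · have := a t1 ht1 n1.1 n1.2 m1
        exact this.2 (c1 this.1)
      · have := a t2 ht2 n2.1 n2.2 m2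
        exact this.2 (c2 this.1)
    · exact hm3 t f1 f2

theorem kd_rrr (i j l : ι) (hij : i ≠ j) (hil : i ≠ l) (hjl : j ≠ l)
    (h : Hyp C S (r i) (r j) (r l)) : False := by
  by_cases h1 : C.B j ↔ C.B l
  · exact kd_rrr_aux i j l hij hil hjl h1 h
  by_cases h2 : C.B i ↔ C.B l
  · exact kd_rrr_aux j i l hij.symm hjl hil h2 h.swap12
  have h3 : C.B i ↔ C.B j := by
    by_cases a : C.B i <;> by_cases b : C.B j <;> by_cases c : C.B l <;> simp_all
  exact kd_rrr_aux l i j hil.symm hjl.symm hij h3 h.swap23.swap12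

end Irr56

namespace Irr56

open W

variable {ι : Type} {C : Cyc ι} {S : W ι → Prop} {a b c : W ι}

/-- rank of a vertex (used to sort the triple) -/
def rank : W ι → ℕ
  | k0 => 0
  | k1 => 1
  | k2 => 2
  | k3 => 3
  | k4 => 4
  | k5 => 5
  | k6 => 6
  | k7 => 7
  | k8 => 8
  | r _ => 9

/-- the three relations say that the triple has no isolated vertex -/
def Conn (C : Cyc ι) (a b c : W ι) : Prop :=
  (nb C a b ∨ nb C a c) ∧ (nb C a b ∨ nb C b c) ∧ (nb C a c ∨ nb C b c)

theorem Conn.swap12 (h : Conn C a b c) : Conn C b a c := by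
  obtain ⟨h1, h2, h3⟩ := h
  refine ⟨?_, ?_, ?_⟩
  · rcases h2 with h | h
    · exact Or.inl (nb_sym C h)
    · exact Or.inr h
  · rcases h1 with h | h
    · exact Or.inl (nb_sym C h)
    · exact Or.inr h
  · exact h3.symm

theorem Conn.swap23 (h : Conn C a b c) : Conn C a c b := by
  obtain ⟨h1, h2, h3⟩ := h
  refine ⟨h1.symm, ?_, ?_⟩
  · rcases h3 with h | h
    · exact Or.inl h
    · exact Or.inr (nb_sym C h)
  · rcases h2 with h | h
    · exact Or.inl h
    · exact Or.inr (nb_sym C h)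

theorem disp_core (a b c : W ι) (h1 : rank a < rank b) (h2 : rank b < rank c) (h3 : rank c < 9)
    (hc : Conn C a b c) (h : Hyp C S a b c) : ∀ w, S w := by
  unfold Conn at hc
  cases a <;> cases b <;> (try (exfalso; simp [rank] at h1; done)) <;>
  cases c <;> (try (exfalso; simp [rank] at h2 h3; done)) <;>
  (try (exfalso; simp [nb] at hc; done)) <;>
  first
  | exact kd_012 h
  | exact (kd_025 h).elim
  | exact (kd_026 h).elim
  | exact (kd_036 h).elim
  | exact (kd_124 h).elim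
  | exact (kd_125 h).elim
  | exact (kd_134 h).elim
  | exact (kd_245 h).elim
  | exact (kd_246 h).elim
  | (exfalso; have := h.ia; simp [ex_W, nb] at this; done)
  | (exfalso; have := h.ib; simp [ex_W, nb] at this; done)
  | (exfalso; have := h.ic; simp [ex_W, nb] at this; done)

theorem disp_one (a b : W ι) (i : ι) (h1 : rank a < rank b) (h2 : rank b < 9)
    (hc : Conn C a b (r i)) (h : Hyp C S a b (r i)) : False := by
  unfold Conn at hc
  cases a <;> cases b <;> (try (exfalso; simp [rank] at h1 h2; done)) <;>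
  (try (exfalso; simp [nb] at hc; done)) <;>
  first
  | exact kd_68r i h
  | exact kd_46r i h
  | exact kd_06r i h
  | exact kd_58r i h
  | exact kd_14r i h
  | exact kd_16b i h (by simpa [nb] using hc)
  | exact kd_17b i h (by simpa [nb] using hc)
  | exact kd_18b i h (by simpa [nb] using hc)
  | exact kd_12b i h (by simpa [nb] using hc)
  | exact kd_13b i h (by simpa [nb] using hc)
  | exact kd_47c i h (by simpa [nb] using hc)
  | exact kd_48c i h (by simpa [nb] using hc)
  | exact kd_24c i h (by simpa [nb] using hc)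
  | exact kd_34c i h (by simpa [nb] using hc)
  | (exfalso; have := h.ia; simp [ex_W, nb] at this; done)
  | (exfalso; have := h.ib; simp [ex_W, nb] at this; done)
  | (exfalso; have := h.ic; simp [ex_W, nb] at this; done)

theorem disp_two (a : W ι) (i j : ι) (hij : i ≠ j) (h1 : rank a < 9)
    (hc : Conn C a (r i) (r j)) (h : Hyp C S a (r i) (r j)) : False := by
  unfold Conn at hc
  cases a <;> (try (exfalso; simp [rank] at h1; done)) <;>
  (try (exfalso; simp [nb] at hc; done)) <;>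
  first
  | exact kd_6rr i j h
  | exact kd_7rr i j hij h
  | exact kd_8rr i j hij h
  | exact kd_1rr i j hij (by have := hc.1; simpa [nb] using this) h
  | exact kd_4rr i j hij (by have := hc.1; simpa [nb] using this) h

theorem disp_sorted (a b c : W ι) (hab : a ≠ b) (hac : a ≠ c) (hbc : b ≠ c)
    (h1 : rank a ≤ rank b) (h2 : rank b ≤ rank c)
    (hc : Conn C a b c) (h : Hyp C S a b c) : ∀ w, S w := by
  have key : ∀ x y : W ι, x ≠ y → rank x ≤ rank y → rank x < 9 → rank x < rank y := by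
    intro x y hxy hle hlt
    rcases Nat.lt_or_ge (rank x) (rank y) with h | h
    · exact h
    · exfalso
      have he : rank x = rank y := le_antisymm hle h
      apply hxy
      cases x <;> cases y <;> simp [rank] at he hlt ⊢
  have kr : ∀ x : W ι, 9 ≤ rank x → ∃ i, x = r i := by
    intro x hx
    cases x <;> simp [rank] at hx
    exact ⟨_, rfl⟩
  by_cases hc9 : rank c < 9
  · exact disp_core a b c (key a b hab h1 (by omega)) (key b c hbc h2 (by omega)) hc9 hc h
  · obtain ⟨l, rfl⟩ := kr c (by omega)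
    by_cases hb9 : rank b < 9
    · exact (disp_one a b l (key a b hab h1 (by omega)) hb9 hc h).elim
    · obtain ⟨j, rfl⟩ := kr b (by omega)
      by_cases ha9 : rank a < 9
      · exact (disp_two a j l (fun e => hbc (by rw [e])) ha9 hc h).elim
      · obtain ⟨i, rfl⟩ := kr a (by omega)
        exact (kd_rrr i j l (fun e => hab (by rw [e])) (fun e => hac (by rw [e]))
          (fun e => hbc (by rw [e])) h).elim

theorem disp (a b c : W ι) (hab : a ≠ b) (hac : a ≠ c) (hbc : b ≠ c)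
    (hc : Conn C a b c) (h : Hyp C S a b c) : ∀ w, S w := by
  rcases le_total (rank a) (rank b) with h1 | h1 <;>
  rcases le_total (rank b) (rank c) with h2 | h2 <;>
  rcases le_total (rank a) (rank c) with h3 | h3
  · exact disp_sorted a b c hab hac hbc h1 h2 hc h
  · exact disp_sorted a b c hab hac hbc h1 h2 hc h
  · exact disp_sorted a c b hac hab hbc.symm h3 h2 hc.swap23 h.swap23
  · exact disp_sorted c a b hac.symm hbc.symm hab h3 h1 hc.swap23.swap12 h.swap23.swap12
  · exact disp_sorted b a c hab.symm hbc hac h1 h3 hc.swap12 h.swap12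
  · exact disp_sorted b c a hbc hab.symm hac.symm h2 h3 hc.swap12.swap23 h.swap12.swap23
  · exact disp_sorted c b a hbc.symm hac.symm hab.symm h2 h1 hc.swap12.swap23.swap12
      h.swap12.swap23.swap12
  · exact disp_sorted c b a hbc.symm hac.symm hab.symm h2 h1 hc.swap12.swap23.swap12
      h.swap12.swap23.swap12

end Irr56

namespace Irr56

open W

variable {ι : Type} [DecidableEq ι] {C : Cyc ι}

theorem hyp_of {S : Finset (W ι)} {a b c : W ι} (hab : a ≠ b) (hac : a ≠ c) (hbc : b ≠ c)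
    (hX : MaxIrr (GG C) S {a, b, c}) (hno : ¬ ∃ D, Dom (GG C) S D ∧ D.card ≤ 3) :
    Hyp C (fun w => w ∈ S) a b c where
  ha := hX.1 (by simp)
  hb := hX.1 (by simp)
  hc := hX.1 (by simp)
  ia := by
    obtain ⟨p, hp, h1, h2⟩ := hX.2.1 a (by simp)
    refine ⟨p, hp, (Nb_iff C a p).1 h1, ?_, ?_⟩
    · rw [← Nb_iff]; exact h2 b (by simp) hab.symm
    · rw [← Nb_iff]; exact h2 c (by simp) hac.symm
  ib := by
    obtain ⟨p, hp, h1, h2⟩ := hX.2.1 b (by simp)
    refine ⟨p, hp, (Nb_iff C b p).1 h1, ?_, ?_⟩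
    · rw [← Nb_iff]; exact h2 a (by simp) hab
    · rw [← Nb_iff]; exact h2 c (by simp) hbc.symm
  ic := by
    obtain ⟨p, hp, h1, h2⟩ := hX.2.1 c (by simp)
    refine ⟨p, hp, (Nb_iff C c p).1 h1, ?_, ?_⟩
    · rw [← Nb_iff]; exact h2 a (by simp) hac
    · rw [← Nb_iff]; exact h2 b (by simp) hbc
  an := by
    intro t ht hta htb htc u hu h1 h2 h3 h4
    obtain ⟨x, hx, hp⟩ := ann hX ht (by simp [hta, htb, htc]) hu (by
      intro x hx
      simp only [Finset.mem_insert, Finset.mem_singleton] at hx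
      rw [Nb_iff]
      rcases hx with rfl | rfl | rfl <;> assumption) ((Nb_iff C t u).2 h4)
    simp only [Finset.mem_insert, Finset.mem_singleton] at hx
    rcases hx with rfl | rfl | rfl
    · left
      intro p hpS h5 h6 h7
      rw [← Nb_iff]
      apply hp p hpS ((Nb_iff C _ p).2 h5)
      intro y hy hyx
      rw [Nb_iff]
      simp only [Finset.mem_insert, Finset.mem_singleton] at hy
      rcases hy with rfl | rfl | rfl
      · exact absurd rfl hyx
      · exact h6
      · exact h7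
    · right; left
      intro p hpS h5 h6 h7
      rw [← Nb_iff]
      apply hp p hpS ((Nb_iff C _ p).2 h5)
      intro y hy hyx
      rw [Nb_iff]
      simp only [Finset.mem_insert, Finset.mem_singleton] at hy
      rcases hy with rfl | rfl | rfl
      · exact h6
      · exact absurd rfl hyx
      · exact h7
    · right; right
      intro p hpS h5 h6 h7
      rw [← Nb_iff]
      apply hp p hpS ((Nb_iff C _ p).2 h5)
      intro y hy hyx
      rw [Nb_iff]
      simp only [Finset.mem_insert, Finset.mem_singleton] at hy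
      rcases hy with rfl | rfl | rfl
      · exact h6
      · exact h7
      · exact absurd rfl hyx
  D := by
    intro x y z hx hy hz
    obtain ⟨u, hu, h1, h2, h3⟩ := no_triple hno hx hy hz
    rw [Nb_iff] at h1 h2 h3
    exact ⟨u, hu, h1, h2, h3⟩

/-- (h3): maximal irredundant sets of cardinality 3 without isolated vertices -/
theorem h3_fam [Fintype (W ι)] (C : Cyc ι) (S : Finset (W ι)) (hS : S ⊂ Finset.univ)
    (X : Finset (W ι)) (hX : MaxIrr (GG C) S X) (hc : X.card = 3)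
    (hiso : ∀ x ∈ X, ∃ y ∈ X, (GG C).Adj x y) : ∃ D, Dom (GG C) S D ∧ D.card ≤ 3 := by
  by_contra hno
  rw [Finset.card_eq_three] at hc
  obtain ⟨a, b, c, hab, hac, hbc, rfl⟩ := hc
  have hyp := hyp_of hab hac hbc hX hno
  have hconn : Conn C a b c := by
    refine ⟨?_, ?_, ?_⟩
    · obtain ⟨y, hy, hay⟩ := hiso a (by simp)
      simp only [Finset.mem_insert, Finset.mem_singleton] at hy
      rcases hy with rfl | rfl | rfl
      · exact absurd rfl hay.1
      · exact Or.inl hay.2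
      · exact Or.inr hay.2
    · obtain ⟨y, hy, hay⟩ := hiso b (by simp)
      simp only [Finset.mem_insert, Finset.mem_singleton] at hy
      rcases hy with rfl | rfl | rfl
      · exact Or.inl (nb_sym C hay.2)
      · exact absurd rfl hay.1
      · exact Or.inr hay.2
    · obtain ⟨y, hy, hay⟩ := hiso c (by simp)
      simp only [Finset.mem_insert, Finset.mem_singleton] at hy
      rcases hy with rfl | rfl | rfl
      · exact Or.inl (nb_sym C hay.2)
      · exact Or.inr (nb_sym C hay.2)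
      · exact absurd rfl hay.1
  have hall := disp a b c hab hac hbc hconn hyp
  exact hS.2 (fun w _ => hall w)

end Irr56
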