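import Pool.Agent.Lib.MP_b725e3_co.A1_Base

set_option autoImplicit false

namespace Irr56

/-- certificate trees -/
inductive Tr where
  | br (v : ℕ) (l r : Tr)
  | ad (x : ℕ)
  | dm (D : List ℕ)
  | ir (s : ℕ)
  | is (v : ℕ)
  | ok

/-- tables of a local model: `lo`, `hi` are bit masks of definite / possible closed
neighbourhoods, `single` the mask of the types having at most one vertex, `pr` the pair rules -/
structure Tab where
  n : ℕ
  lo : List ℕ
  hi : List ℕ
  single : ℕ
  pr : List (ℕ × ℕ × ℕ)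

namespace Tab

variable (T : Tab)

def l (i j : ℕ) : Bool := (T.lo.getD i 0).testBit j
def h (i j : ℕ) : Bool := (T.hi.getD i 0).testBit j

/-- `j` is covered by the types in `D` -/
def cov (D : List ℕ) (j : ℕ) : Bool :=
  D.any (fun d => T.l d j) ||
    T.pr.any (fun p => D.contains p.1 && D.contains p.2.1 && p.2.2.testBit j)

def ckAd (xs : List ℕ) (k1 : ℕ) (x : ℕ) : Bool :=
  k1.testBit x &&
  (List.range T.n).any (fun u => k1.testBit u && (u == x || T.l x u) &&
    xs.all (fun s => !T.h s u)) &&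
  xs.all (fun s => (List.range T.n).any (fun p => k1.testBit p && T.l s p && !T.h x p &&
    xs.all (fun s' => s' == s || !T.h s' p)))

def ckDm (k : ℕ) (k1 k0 : ℕ) (D : List ℕ) : Bool :=
  decide (D.length ≤ k) && D.all (fun d => k1.testBit d) &&
  (List.range T.n).all (fun j => k0.testBit j || T.cov D j)

def ckIr (xs : List ℕ) (k0 : ℕ) (s : ℕ) : Bool :=
  xs.contains s &&
  (List.range T.n).all (fun p => k0.testBit p || !T.h s p ||
    xs.any (fun s' => s' != s && T.l s' p))

def ckIs (k1 k0 : ℕ) (v : ℕ) : Bool :=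
  k1.testBit v && T.single.testBit v &&
  (List.range T.n).all (fun p => k0.testBit p || !T.h v p || p == v)

/-- the checker; `mx`: the leaves about `X` are allowed, `mi`: the leaf about isolated
vertices is allowed, `goal`: mask of types whose presence is the alternative conclusion -/
def ck (mx mi : Bool) (goal : Option ℕ) (xs : List ℕ) (k : ℕ) : Tr → ℕ → ℕ → Bool
  | .br v l r, k1, k0 =>
      ck mx mi goal xs k l (k1 ||| (1 <<< v)) k0 && ck mx mi goal xs k r k1 (k0 ||| (1 <<< v))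
  | .ad x, k1, _ => mx && T.ckAd xs k1 x
  | .dm D, k1, k0 => T.ckDm k k1 k0 D
  | .ir s, _, k0 => mx && T.ckIr xs k0 s
  | .is v, k1, k0 => mi && T.ckIs k1 k0 v
  | .ok, k1, _ =>
      match goal with
      | none => false
      | some g => (List.range T.n).all (fun j => !g.testBit j || k1.testBit j)

end Tab

variable {V : Type*} [DecidableEq V]

/-- a typing of the vertices of `S` by the local model `T` -/
structure Typing (G : SimpleGraph V) (S : Finset V) (T : Tab) where
  ty : V → ℕ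
  lt : ∀ v ∈ S, ty v < T.n
  lo : ∀ v ∈ S, ∀ w ∈ S, T.l (ty v) (ty w) = true → Nb G v w
  hi : ∀ v ∈ S, ∀ w ∈ S, Nb G v w → T.h (ty v) (ty w) = true
  single : ∀ v ∈ S, ∀ w ∈ S, ty v = ty w → T.single.testBit (ty v) = true → v = w
  pr : ∀ p ∈ T.pr, ∀ v ∈ S, ∀ w ∈ S, ty v = p.1 → ty w = p.2.1 → ∀ u ∈ S,
    p.2.2.testBit (ty u) = true → Nb G v u ∨ Nb G w u

section
variable {G : SimpleGraph V} {S : Finset V} {T : Tab}

/-- the knowledge state `(k1, k0)` is correct -/
def Sem (Y : Typing G S T) (k1 k0 : ℕ) : Prop :=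
  (∀ i, k1.testBit i = true → ∃ v ∈ S, Y.ty v = i) ∧ (∀ v ∈ S, k0.testBit (Y.ty v) = false)

omit [DecidableEq V] in
theorem testBit_or_shift (k v i : ℕ) :
    (k ||| (1 <<< v)).testBit i = (k.testBit i || decide (i = v)) := by
  rw [Nat.testBit_or, Nat.one_shiftLeft, Nat.testBit_two_pow]
  congr 1
  exact decide_eq_decide.2 eq_comm

theorem sound (Y : Typing G S T) (mx mi : Bool) (goal : Option ℕ) (xs : List ℕ) (k : ℕ)
    (X : Finset V) (P : Prop)
    (hX : mx = true → MaxIrr G S X)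
    (hX1 : mx = true → ∀ v ∈ X, Y.ty v ∈ xs)
    (hX2 : mx = true → ∀ i ∈ xs, ∃ v ∈ X, Y.ty v = i)
    (hX3 : mx = true → ∀ v ∈ X, ∀ w ∈ X, Y.ty v = Y.ty w → v = w)
    (hI : mi = true → ∀ v ∈ S, ∃ w ∈ S, G.Adj v w)
    (hno : ¬ ∃ D, Dom G S D ∧ D.card ≤ k)
    (hP : ∀ g, goal = some g → (∀ j < T.n, g.testBit j = true → ∃ v ∈ S, Y.ty v = j) → P) :
    ∀ (t : Tr) (k1 k0 : ℕ), Sem Y k1 k0 → T.ck mx mi goal xs k t k1 k0 = true → P := by
  intro t
  induction t with
  | br v l r ihl ihr =>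
    intro k1 k0 hS hck
    simp only [Tab.ck, Bool.and_eq_true] at hck
    by_cases hv : ∃ w ∈ S, Y.ty w = v
    · refine ihl _ _ ⟨?_, hS.2⟩ hck.1
      intro i hi
      rw [testBit_or_shift, Bool.or_eq_true, decide_eq_true_eq] at hi
      rcases hi with hi | hi
      · exact hS.1 i hi
      · rw [hi]; exact hv
    · refine ihr _ _ ⟨hS.1, ?_⟩ hck.2
      intro w hw
      rw [testBit_or_shift, hS.2 w hw, Bool.false_or, decide_eq_false_iff_not]
      intro e
      exact hv ⟨w, hw, e⟩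
  | ad x =>
    intro k1 k0 hS hck
    exfalso
    simp only [Tab.ck, Tab.ckAd, Bool.and_eq_true, List.any_eq_true, List.all_eq_true,
      List.mem_range, Bool.not_eq_true', Bool.or_eq_true, beq_iff_eq] at hck
    obtain ⟨hmx, ⟨hx1, u, hun, ⟨hu1, hu2⟩, hu3⟩, hp⟩ := hck
    have hX := hX hmx; have hX1 := hX1 hmx; have hX2 := hX2 hmx; have hX3 := hX3 hmx
    obtain ⟨vx, hvx, hvxt⟩ := hS.1 x hx1
    -- the private neighbour of the new vertex
    obtain ⟨vu, hvu, hvut, hvun⟩ : ∃ vu ∈ S, Y.ty vu = u ∧ Nb G vx vu := by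
      rcases hu2 with h | h
      · exact ⟨vx, hvx, by rw [hvxt, h], Or.inl rfl⟩
      · obtain ⟨vu, hvu, hvut⟩ := hS.1 u hu1
        exact ⟨vu, hvu, hvut, Y.lo vx hvx vu hvu (by rw [hvxt, hvut]; exact h)⟩
    have hnu : ∀ s ∈ X, ¬ Nb G s vu := by
      intro s hs hn
      have h1 := Y.hi s (hX.1 hs) vu hvu hn
      have h2 := hu3 (Y.ty s) (hX1 s hs)
      rw [hvut, h2] at h1
      exact absurd h1 (by decide)
    have hxX : vx ∉ X := fun h => hnu vx h hvun
    apply hX.2.2 vx hvx hxX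
    intro s hs
    rw [Finset.mem_insert] at hs
    rcases hs with rfl | hs
    · refine ⟨vu, hvu, hvun, ?_⟩
      intro s' hs' hne hn
      rw [Finset.mem_insert] at hs'
      rcases hs' with h | h
      · exact hne h
      · exact hnu s' h hn
    · obtain ⟨p, hpn, ⟨⟨hp1, hp2⟩, hp3⟩, hp4⟩ := hp (Y.ty s) (hX1 s hs)
      obtain ⟨vp, hvp, hvpt⟩ := hS.1 p hp1
      refine ⟨vp, hvp, Y.lo s (hX.1 hs) vp hvp (by rw [hvpt]; exact hp2), ?_⟩
      intro s' hs' hne hn
      rw [Finset.mem_insert] at hs'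
      rcases hs' with rfl | h
      · have h1 := Y.hi s' hvx vp hvp hn
        rw [hvxt, hvpt, hp3] at h1
        exact absurd h1 (by decide)
      · have h1 := Y.hi s' (hX.1 h) vp hvp hn
        rw [hvpt] at h1
        rcases hp4 (Y.ty s') (hX1 s' h) with h2 | h2
        · exact hne (hX3 s' h s hs h2)
        · rw [h2] at h1
          exact absurd h1 (by decide)
  | dm D =>
    intro k1 k0 hS hck
    exfalso
    simp only [Tab.ck, Tab.ckDm, Tab.cov, Bool.and_eq_true, List.any_eq_true, List.all_eq_true,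
      List.mem_range, Bool.or_eq_true, decide_eq_true_eq, List.contains_iff_mem] at hck
    obtain ⟨⟨hlen, hD⟩, hc⟩ := hck
    have hrep : ∀ d ∈ D, ∃ v ∈ S, Y.ty v = d := fun d hd => hS.1 d (hD d hd)
    have hex : ∃ rep : ℕ → V, ∀ d ∈ D, rep d ∈ S ∧ Y.ty (rep d) = d := by
      by_cases hne : Nonempty V
      · obtain ⟨v0⟩ := hne
        classical
        refine ⟨fun d => if h : ∃ v ∈ S, Y.ty v = d then h.choose else v0, ?_⟩
        intro d hd
        have h := hrep d hd
        simp only [h, dif_pos]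
        exact h.choose_spec
      · have : D = [] := by
          cases D with
          | nil => rfl
          | cons a D =>
            exfalso
            obtain ⟨v, _⟩ := hrep a (by simp)
            exact hne ⟨v⟩
        subst this
        exact (hno ⟨∅, ⟨by simp, fun v _ => absurd ⟨v⟩ hne⟩, by simp⟩).elim
    obtain ⟨rep, hr⟩ := hex
    apply hno
    refine ⟨(D.map rep).toFinset, ?_, ?_⟩
    · rw [dom_iff]
      constructor
      · intro v hv
        rw [List.mem_toFinset, List.mem_map] at hv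
        obtain ⟨d, hd, rfl⟩ := hv
        exact (hr d hd).1
      · intro v hv
        have h1 := hc (Y.ty v) (Y.lt v hv)
        have hmem : ∀ d ∈ D, rep d ∈ (D.map rep).toFinset := by
          intro d hd
          rw [List.mem_toFinset, List.mem_map]
          exact ⟨d, hd, rfl⟩
        rcases h1 with h1 | ⟨d, hd, h1⟩ | ⟨p, hp, ⟨h1, h2⟩, h3⟩
        · rw [hS.2 v hv] at h1
          exact absurd h1 (by decide)
        · exact ⟨rep d, hmem d hd, Y.lo _ (hr d hd).1 v hv (by rw [(hr d hd).2]; exact h1)⟩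
        · rcases Y.pr p hp (rep p.1) (hr _ h1).1 (rep p.2.1) (hr _ h2).1 (hr _ h1).2 (hr _ h2).2
            v hv h3 with h | h
          · exact ⟨_, hmem _ h1, h⟩
          · exact ⟨_, hmem _ h2, h⟩
    · refine le_trans (List.toFinset_card_le _) ?_
      rw [List.length_map]
      exact hlen
  | ir s =>
    intro k1 k0 hS hck
    exfalso
    simp only [Tab.ck, Tab.ckIr, Bool.and_eq_true, List.any_eq_true, List.all_eq_true,
      List.mem_range, Bool.or_eq_true, Bool.not_eq_true', List.contains_iff_mem,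
      bne_iff_ne, ne_eq] at hck
    obtain ⟨hmx, hs, hc⟩ := hck
    have hX := hX hmx; have hX1 := hX1 hmx; have hX2 := hX2 hmx; have hX3 := hX3 hmx
    obtain ⟨vs, hvs, hvst⟩ := hX2 s hs
    obtain ⟨p, hp, hpn, hpr⟩ := hX.2.1 vs hvs
    rcases hc (Y.ty p) (Y.lt p hp) with (h | h) | ⟨s', hs', hne, h⟩
    · rw [hS.2 p hp] at h
      exact absurd h (by decide)
    · have h1 := Y.hi vs (hX.1 hvs) p hp hpn
      rw [hvst, h] at h1
      exact absurd h1 (by decide)
    · obtain ⟨vs', hvs', hvst'⟩ := hX2 s' hs'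
      have h1 : Nb G vs' p := Y.lo vs' (hX.1 hvs') p hp (by rw [hvst']; exact h)
      apply hpr vs' hvs' _ h1
      intro e
      apply hne
      rw [← hvst', e, hvst]
  | is v =>
    intro k1 k0 hS hck
    exfalso
    simp only [Tab.ck, Tab.ckIs, Bool.and_eq_true, List.all_eq_true,
      List.mem_range, Bool.or_eq_true, Bool.not_eq_true', beq_iff_eq] at hck
    obtain ⟨hmi, ⟨hv, hsg⟩, hc⟩ := hck
    obtain ⟨w, hw, hwt⟩ := hS.1 v hv
    obtain ⟨w', hw', hadj⟩ := hI hmi w hw
    rcases hc (Y.ty w') (Y.lt w' hw') with (h | h) | h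
    · rw [hS.2 w' hw'] at h
      exact absurd h (by decide)
    · have h1 := Y.hi w hw w' hw' (Or.inr hadj)
      rw [hwt, h] at h1
      exact absurd h1 (by decide)
    · have h1 := Y.single w hw w' hw' (by rw [hwt, h]) (by rw [hwt]; exact hsg)
      exact hadj.ne h1
  | ok =>
    intro k1 k0 hS hck
    cases goal with
    | none => simp [Tab.ck] at hck
    | some g =>
      simp only [Tab.ck, List.all_eq_true, List.mem_range, Bool.or_eq_true,
        Bool.not_eq_true'] at hck
      apply hP g rfl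
      intro j hj hg
      rcases hck j hj with h | h
      · rw [hg] at h
        exact absurd h (by decide)
      · exact hS.1 j h

end

end Irr56

namespace Irr56

open W

variable {ι : Type}

/-- local model of a set without cycle vertices -/
def tabE : Tab where
  n := 9
  lo := [77, 30, 55, 27, 94, 292, 81, 128, 288]
  hi := [77, 30, 55, 27, 94, 292, 81, 128, 288]
  single := 511
  pr := []

/-- local model around a cycle vertex `g`: types 0-8 core, 9 `g`, 10 `s g`, 11 `o g`,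
12 the other vertices of the colour of `g`, 13 the other vertices of the other colour -/
def tabA : Bool → Tab
  | true =>
    { n := 14
      lo := [77, 5662, 55, 27, 10334, 292, 15953, 16000, 16160, 13250, 7618, 7632, 4034, 976]
      hi := [77, 5662, 55, 27, 10334, 292, 15953, 16000, 16160, 13250, 15810, 15824, 16322,
  16336]
      single := 4095
      pr := [(9, 10, 15872), (9, 12, 15872), (10, 12, 15872), (11, 13, 15872)] }
  | false =>
    { n := 14
      lo := [77, 10270, 55, 27, 5726, 292, 15953, 16000, 16160, 13264, 7632, 7618, 4048, 962]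
      hi := [77, 10270, 55, 27, 5726, 292, 15953, 16000, 16160, 13264, 15824, 15810, 16336,
  16322]
      single := 4095
      pr := [(9, 10, 15872), (9, 12, 15872), (10, 12, 15872), (11, 13, 15872)] }

open Classical in
/-- the typing function -/
noncomputable def tyA (C : Cyc ι) (g : ι) : W ι → ℕ
  | k0 => 0
  | k1 => 1
  | k2 => 2
  | k3 => 3
  | k4 => 4
  | k5 => 5
  | k6 => 6
  | k7 => 7
  | k8 => 8
  | r t => if t = g then 9 else if t = C.s g then 10 else if t = C.o g then 11 else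
      if (C.B t ↔ C.B g) then 12 else 13

theorem tyA_r (C : Cyc ι) (g t : ι) :
    (tyA C g (r t) = 9 ∧ t = g) ∨ (tyA C g (r t) = 10 ∧ t = C.s g) ∨
    (tyA C g (r t) = 11 ∧ t = C.o g) ∨
    (tyA C g (r t) = 12 ∧ t ≠ g ∧ t ≠ C.s g ∧ t ≠ C.o g ∧ (C.B t ↔ C.B g)) ∨
    (tyA C g (r t) = 13 ∧ t ≠ g ∧ t ≠ C.s g ∧ t ≠ C.o g ∧ (C.B t ↔ ¬ C.B g)) := by
  unfold tyA
  by_cases h1 : t = g
  · left; simp [h1]
  · by_cases h2 : t = C.s g
    · right; left; simp [h2, C.si g]
    · by_cases h3 : t = C.o g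
      · right; right; left
        simp only [h3, C.oi g, (C.so g).symm, if_true, if_false, and_self]
      · by_cases h4 : C.B t ↔ C.B g
        · right; right; right; left
          refine ⟨by simp only [h1, h2, h3, h4, if_true, if_false], h1, h2, h3, h4⟩
        · right; right; right; right
          refine ⟨by simp only [h1, h2, h3, h4, if_false], h1, h2, h3, ?_⟩
          tauto

/-- two cycle vertices of the same colour dominate the cycle part -/
theorem pair_rule (C : Cyc ι) (v w : ι) (hne : v ≠ w) (hcol : C.B v ↔ C.B w) (u : ι) :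
    nb C (r v) (r u) ∨ nb C (r w) (r u) := by
  by_contra hcon
  simp only [nb, not_or, not_and_or, not_not] at hcon
  obtain ⟨h1, h2⟩ := hcon
  have s1 := C.sB v
  have s2 := C.sB w
  have o1 := C.oB v
  have o2 := C.oB w
  rcases h1 with h1 | h1 <;> rcases h2 with h2 | h2
  · apply hne
    rw [← C.ss v, ← C.ss w, ← h1, ← h2]
  · rw [← h1] at s1
    rw [← h2] at o2
    tauto
  · rw [← h1] at o1
    rw [← h2] at s2
    tauto
  · apply hne
    rw [← C.oo v, ← C.oo w, ← h1, ← h2]

/-- relations between cycle vertices by type: definite adjacency -/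
theorem nbr_of (C : Cyc ι) (v w : ι) (h : w ≠ C.s v) (h' : w ≠ C.o v) : nb C (r v) (r w) :=
  ⟨h, h'⟩

end Irr56

namespace Irr56

open W

variable {ι : Type}

theorem rr_9 (C : Cyc ι) (g t : ι) (h : t ≠ C.s g) (h' : t ≠ C.o g) : nb C (r g) (r t) :=
  ⟨h, h'⟩

theorem rr_10_11 (C : Cyc ι) (g : ι) : nb C (r (C.s g)) (r (C.o g)) := by
  refine ⟨?_, ?_⟩
  · rw [C.ss]; exact C.oi g
  · intro h
    apply C.si g
    rw [← C.oo (C.s g), ← h, C.oo]

theorem rr_10_12 (C : Cyc ι) (g t : ι) (h : t ≠ g) (hc : C.B t ↔ C.B g) :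
    nb C (r (C.s g)) (r t) := by
  refine ⟨?_, ?_⟩
  · rw [C.ss]; exact h
  · intro e
    have h1 := C.oB (C.s g)
    have h2 := C.sB g
    rw [← e] at h1
    tauto

theorem rr_11_12 (C : Cyc ι) (g t : ι) (h : t ≠ g) (hc : C.B t ↔ C.B g) :
    nb C (r (C.o g)) (r t) := by
  refine ⟨?_, ?_⟩
  · intro e
    have h1 := C.sB (C.o g)
    have h2 := C.oB g
    rw [← e] at h1
    tauto
  · rw [C.oo]; exact h

theorem rr_not_10 (C : Cyc ι) (g : ι) : ¬ nb C (r g) (r (C.s g)) := fun h => h.1 rfl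

theorem rr_not_11 (C : Cyc ι) (g : ι) : ¬ nb C (r g) (r (C.o g)) := fun h => h.2 rfl

/-- definite adjacency between cycle vertices -/
theorem typA_lo_rr (C : Cyc ι) (g : ι) (c : Bool) (t t' : ι)
    (h : (tabA c).l (tyA C g (r t)) (tyA C g (r t')) = true) : nb C (r t) (r t') := by
  rcases tyA_r C g t with ⟨e, he⟩ | ⟨e, he⟩ | ⟨e, he⟩ | ⟨e, he1, he2, he3, he4⟩ |
    ⟨e, he1, he2, he3, he4⟩ <;>
  rcases tyA_r C g t' with ⟨e', he'⟩ | ⟨e', he'⟩ | ⟨e', he'⟩ | ⟨e', he1', he2', he3', he4'⟩ |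
    ⟨e', he1', he2', he3', he4'⟩ <;>
  rw [e, e'] at h <;> cases c <;> (try exact absurd h (by decide)) <;> (try subst he) <;>
  (try subst he') <;> first
    | exact nb_refl C _
    | exact rr_9 C _ _ he2' he3'
    | exact nb_sym C (rr_9 C _ _ he2 he3)
    | exact rr_10_11 C _
    | exact nb_sym C (rr_10_11 C _)
    | exact rr_10_12 C _ _ he1' he4'
    | exact nb_sym C (rr_10_12 C _ _ he1 he4)
    | exact rr_11_12 C _ _ he1' he4'
    | exact nb_sym C (rr_11_12 C _ _ he1 he4)

theorem typA_hi_rr (C : Cyc ι) (g : ι) (c : Bool) (t t' : ι) (h : nb C (r t) (r t')) :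
    (tabA c).h (tyA C g (r t)) (tyA C g (r t')) = true := by
  rcases tyA_r C g t with ⟨e, he⟩ | ⟨e, he⟩ | ⟨e, he⟩ | ⟨e, he1, he2, he3, he4⟩ |
    ⟨e, he1, he2, he3, he4⟩ <;>
  rcases tyA_r C g t' with ⟨e', he'⟩ | ⟨e', he'⟩ | ⟨e', he'⟩ | ⟨e', he1', he2', he3', he4'⟩ |
    ⟨e', he1', he2', he3', he4'⟩ <;>
  rw [e, e'] <;> cases c <;> (try decide) <;> exfalso <;> subst he <;> subst he' <;> first
    | exact rr_not_10 C _ h
    | exact rr_not_11 C _ h
    | exact rr_not_10 C _ (nb_sym C h)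
    | exact rr_not_11 C _ (nb_sym C h)

theorem tyA_col (C : Cyc ι) (g t : ι) :
    ((tyA C g (r t) = 9 ∨ tyA C g (r t) = 10 ∨ tyA C g (r t) = 12) ∧ (C.B t ↔ C.B g)) ∨
    ((tyA C g (r t) = 11 ∨ tyA C g (r t) = 13) ∧ (C.B t ↔ ¬ C.B g)) := by
  have hs := C.sB g
  have ho := C.oB g
  rcases tyA_r C g t with ⟨e, he⟩ | ⟨e, he⟩ | ⟨e, he⟩ | ⟨e, he1, he2, he3, he4⟩ |
    ⟨e, he1, he2, he3, he4⟩
  · left; exact ⟨Or.inl e, by rw [he]⟩
  · left; exact ⟨Or.inr (Or.inl e), by rw [he]; exact hs⟩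
  · right; exact ⟨Or.inl e, by rw [he]; exact ho⟩
  · left; exact ⟨Or.inr (Or.inr e), he4⟩
  · right; exact ⟨Or.inr e, he4⟩

/-- the mask of the types of colour B -/
def mB (c : Bool) : ℕ := bif c then 5632 else 10240

theorem tyA_B (C : Cyc ι) (g t : ι) (c : Bool) (hc : C.B g ↔ c = true) :
    C.B t ↔ (mB c).testBit (tyA C g (r t)) = true := by
  rcases tyA_col C g t with ⟨e, h⟩ | ⟨e, h⟩
  · rw [h, hc]
    rcases e with e | e | e <;> rw [e] <;> cases c <;> decide
  · rw [h, hc]
    rcases e with e | e <;> rw [e] <;> cases c <;> decide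

theorem tyA_range (C : Cyc ι) (g t : ι) :
    tyA C g (r t) = 9 ∨ tyA C g (r t) = 10 ∨ tyA C g (r t) = 11 ∨ tyA C g (r t) = 12 ∨
    tyA C g (r t) = 13 := by
  rcases tyA_r C g t with ⟨e, he⟩ | ⟨e, he⟩ | ⟨e, he⟩ | ⟨e, he1, he2, he3, he4⟩ |
    ⟨e, he1, he2, he3, he4⟩ <;> simp [e]

/-- core vertices against cycle vertices -/
theorem core_r (C : Cyc ι) (g t : ι) (c : Bool) (hc : C.B g ↔ c = true) (v : W ι)
    (hv : ∀ t', v ≠ r t') :
    ((tabA c).l (tyA C g v) (tyA C g (r t)) = true ↔ nb C v (r t)) ∧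
    ((tabA c).l (tyA C g (r t)) (tyA C g v) = true ↔ nb C v (r t)) ∧
    ((tabA c).h (tyA C g v) (tyA C g (r t)) = true ↔ nb C v (r t)) ∧
    ((tabA c).h (tyA C g (r t)) (tyA C g v) = true ↔ nb C v (r t)) := by
  have hB := tyA_B C g t c hc
  have hr := tyA_range C g t
  generalize tyA C g (r t) = k at hB hr
  cases v with
  | r t' => exact absurd rfl (hv t')
  | k1 =>
    simp only [nb, tyA, hB]
    rcases hr with rfl | rfl | rfl | rfl | rfl <;> cases c <;> decide
  | k4 =>
    simp only [nb, tyA, hB]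
    rcases hr with rfl | rfl | rfl | rfl | rfl <;> cases c <;> decide
  | _ =>
    simp only [nb, tyA]
    rcases hr with rfl | rfl | rfl | rfl | rfl <;> cases c <;> decide

/-- core vertices against core vertices -/
theorem core_core (C : Cyc ι) (g : ι) (c : Bool) (v w : W ι)
    (hv : ∀ t', v ≠ r t') (hw : ∀ t', w ≠ r t') :
    ((tabA c).l (tyA C g v) (tyA C g w) = true ↔ nb C v w) ∧
    ((tabA c).h (tyA C g v) (tyA C g w) = true ↔ nb C v w) := by
  cases v <;> cases w <;>
  first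
  | exact absurd rfl (hv _)
  | exact absurd rfl (hw _)
  | (simp only [nb, tyA]; cases c <;> decide)

theorem tyA_single (C : Cyc ι) (g : ι) (v w : W ι) (h : tyA C g v = tyA C g w)
    (hs : (4095 : ℕ).testBit (tyA C g v) = true) : v = w := by
  have key : ∀ (t : ι) (u : W ι), (∀ t', u ≠ r t') → tyA C g (r t) ≠ tyA C g u := by
    intro t u hu h
    have hr := tyA_range C g t
    rw [h] at hr
    cases u <;> first | exact absurd rfl (hu _) | (simp only [tyA] at hr; exact absurd hr (by decide))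
  by_cases hv : ∃ t, v = r t
  · obtain ⟨t, rfl⟩ := hv
    by_cases hw : ∃ t, w = r t
    · obtain ⟨t', rfl⟩ := hw
      rcases tyA_r C g t with ⟨e, he⟩ | ⟨e, he⟩ | ⟨e, he⟩ | ⟨e, he1, he2, he3, he4⟩ |
        ⟨e, he1, he2, he3, he4⟩ <;>
      rcases tyA_r C g t' with ⟨e', he'⟩ | ⟨e', he'⟩ | ⟨e', he'⟩ | ⟨e', he1', he2', he3', he4'⟩ |
        ⟨e', he1', he2', he3', he4'⟩ <;>
      first
      | (rw [e] at hs; exact absurd hs (by decide))
      | (rw [e, e'] at h; exact absurd h (by decide))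
      | rw [he, he']
    · push Not at hw
      exact absurd h (key t w hw)
  · push Not at hv
    by_cases hw : ∃ t, w = r t
    · obtain ⟨t', rfl⟩ := hw
      exact absurd h.symm (key t' v hv)
    · push Not at hw
      cases v <;> cases w <;> first
        | rfl
        | exact absurd rfl (hv _)
        | exact absurd rfl (hw _)
        | (simp only [tyA] at h; exact absurd h (by decide))

theorem tyA_lt (C : Cyc ι) (g : ι) (v : W ι) : tyA C g v < 14 := by
  cases v with
  | r t => rcases tyA_range C g t with h | h | h | h | h <;> rw [h] <;> decide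
  | _ => simp only [tyA]; decide

theorem ty_R (C : Cyc ι) (g : ι) (v : W ι) (h : (15872 : ℕ).testBit (tyA C g v) = true) :
    ∃ t, v = r t := by
  cases v with
  | r t => exact ⟨t, rfl⟩
  | _ => simp only [tyA] at h; exact absurd h (by decide)

/-- the typing of a set around the cycle vertex `g` -/
noncomputable def typA (C : Cyc ι) [DecidableEq ι] (S : Finset (W ι)) (g : ι) (c : Bool)
    (hc : C.B g ↔ c = true) : Typing (GG C) S (tabA c) where
  ty := tyA C g
  lt := by
    intro v _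
    have := tyA_lt C g v
    cases c <;> exact this
  lo := by
    intro v _ w _ h
    rw [Nb_iff]
    by_cases hv : ∃ t, v = r t
    · obtain ⟨t, rfl⟩ := hv
      by_cases hw : ∃ t, w = r t
      · obtain ⟨t', rfl⟩ := hw
        exact typA_lo_rr C g c t t' h
      · push Not at hw
        exact nb_sym C ((core_r C g t c hc w hw).2.1.1 h)
    · push Not at hv
      by_cases hw : ∃ t, w = r t
      · obtain ⟨t', rfl⟩ := hw
        exact (core_r C g t' c hc v hv).1.1 h
      · push Not at hw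
        exact (core_core C g c v w hv hw).1.1 h
  hi := by
    intro v _ w _ h
    rw [Nb_iff] at h
    by_cases hv : ∃ t, v = r t
    · obtain ⟨t, rfl⟩ := hv
      by_cases hw : ∃ t, w = r t
      · obtain ⟨t', rfl⟩ := hw
        exact typA_hi_rr C g c t t' h
      · push Not at hw
        exact (core_r C g t c hc w hw).2.2.2.2 (nb_sym C h)
    · push Not at hv
      by_cases hw : ∃ t, w = r t
      · obtain ⟨t', rfl⟩ := hw
        exact (core_r C g t' c hc v hv).2.2.1.2 h
      · push Not at hw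
        exact (core_core C g c v w hv hw).2.2 h
  single := by
    intro v _ w _ h hs
    apply tyA_single C g v w h
    cases c <;> exact hs
  pr := by
    intro p hp v _ w _ hv hw u _ hu
    have hp' : p ∈ [(9, 10, 15872), (9, 12, 15872), (10, 12, 15872), (11, 13, 15872)] := by
      cases c <;> exact hp
    simp only [List.mem_cons, List.not_mem_nil, or_false] at hp'
    have hm : p.2.2 = 15872 := by rcases hp' with rfl | rfl | rfl | rfl <;> rfl
    rw [hm] at hu
    obtain ⟨u', rfl⟩ := ty_R C g u hu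
    have hv' : (15872 : ℕ).testBit (tyA C g v) = true := by
      rw [hv]; rcases hp' with rfl | rfl | rfl | rfl <;> decide
    have hw' : (15872 : ℕ).testBit (tyA C g w) = true := by
      rw [hw]; rcases hp' with rfl | rfl | rfl | rfl <;> decide
    obtain ⟨v', rfl⟩ := ty_R C g v hv'
    obtain ⟨w', rfl⟩ := ty_R C g w hw'
    rw [Nb_iff, Nb_iff]
    apply pair_rule C v' w'
    · intro e
      subst e
      rw [hv] at hw
      rcases hp' with rfl | rfl | rfl | rfl <;> exact absurd hw (by decide)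
    · rw [tyA_B C g v' c hc, tyA_B C g w' c hc, hv, hw]
      rcases hp' with rfl | rfl | rfl | rfl <;> cases c <;> decide

end Irr56

namespace Irr56

open W

variable {ι : Type}

/-- typing of the sets without cycle vertices -/
def tyE : W ι → ℕ
  | k0 => 0
  | k1 => 1
  | k2 => 2
  | k3 => 3
  | k4 => 4
  | k5 => 5
  | k6 => 6
  | k7 => 7
  | k8 => 8
  | r _ => 9

def typE (C : Cyc ι) [DecidableEq ι] (S : Finset (W ι)) (hS : ∀ t, r t ∉ S) :
    Typing (GG C) S tabE where
  ty := tyE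
  lt := by
    intro v hv
    cases v <;> first | exact absurd hv (hS _) | (simp only [tyE]; decide)
  lo := by
    intro v hv w hw h
    rw [Nb_iff]
    cases v <;> first
      | exact absurd hv (hS _)
      | (cases w <;> first
          | exact absurd hw (hS _)
          | exact trivial
          | (simp only [tyE] at h; exact absurd h (by decide)))
  hi := by
    intro v hv w hw h
    rw [Nb_iff] at h
    cases v <;> first
      | exact absurd hv (hS _)
      | (cases w <;> first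
          | exact absurd hw (hS _)
          | exact absurd h id
          | (simp only [tyE]; decide))
  single := by
    intro v hv w hw h _
    cases v <;> first
      | exact absurd hv (hS _)
      | (cases w <;> first
          | exact absurd hw (hS _)
          | exact rfl
          | (simp only [tyE] at h; exact absurd h (by decide)))
  pr := by
    intro p hp
    exact absurd hp (by simp [tabE])

def treeE : Tr :=
  (.br 7 (.is 7) (.br 5 (.br 0 (.br 1 (.dm [0, 1, 5]) (.br 4 (.dm [0, 4, 5]) (.dm [0, 5]))) (.br 4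
  (.dm [4, 5]) (.br 6 (.is 6) (.br 1 (.dm [1, 5]) (.br 3 (.is 3) (.dm [5])))))) (.br 8 (.is 8)
  (.br 0 (.br 1 (.dm [0, 1]) (.br 4 (.dm [0, 4]) (.dm [0]))) (.br 4 (.dm [4]) (.br 6 (.is 6) (.br
  1 (.dm [1]) (.br 2 (.is 2) (.br 3 (.is 3) (.dm []))))))))))

def treeB : Tr :=
  (.br 0 (.br 5 (.br 6 (.dm [0, 5, 6, 9]) (.br 11 (.dm [0, 5, 9, 11]) (.br 1 (.dm [0, 1, 5, 9])
  (.br 4 (.br 7 (.dm [0, 4, 5, 7]) (.br 8 (.dm [0, 4, 8]) (.br 2 (.br 10 (.dm [0, 2, 9, 10]) (.dm
  [0, 2, 9])) (.is 5)))) (.br 10 (.dm [0, 5, 9, 10]) (.dm [0, 5, 9])))))) (.br 6 (.dm [0, 6, 9])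
  (.br 11 (.dm [0, 9, 11]) (.br 1 (.dm [0, 1, 9]) (.br 4 (.br 10 (.dm [0, 4, 9, 10]) (.dm [0, 4,
  9])) (.br 10 (.dm [0, 9, 10]) (.dm [0, 9]))))))) (.br 8 (.br 1 (.dm [1, 8, 9]) (.br 4 (.dm [4,
  8, 9]) (.br 3 (.is 3) (.br 2 (.dm [2, 8, 9]) (.dm [8, 9]))))) (.br 2 (.br 3 (.br 6 (.dm [2, 3,
  6, 9]) (.br 7 (.dm [2, 3, 7]) (.br 10 (.dm [2, 3, 9, 10]) (.br 11 (.dm [2, 3, 9, 11]) (.dm [2,
  3, 9]))))) (.br 6 (.dm [2, 6, 9]) (.br 7 (.dm [2, 7]) (.br 10 (.dm [2, 9, 10]) (.br 11 (.dm [2,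
  9, 11]) (.dm [2, 9])))))) (.br 5 (.is 5) (.br 3 (.br 6 (.dm [3, 6, 9]) (.br 7 (.dm [3, 7]) (.br
  10 (.dm [3, 9, 10]) (.br 11 (.dm [3, 9, 11]) (.dm [3, 9]))))) (.br 6 (.dm [6, 9]) (.br 11 (.dm
  [9, 11]) (.br 1 (.dm [1, 9]) (.br 4 (.br 10 (.dm [4, 9, 10]) (.dm [4, 9])) (.br 10 (.dm [9, 10])
  (.dm [9])))))))))))

def treeC : Tr :=
  (.br 0 (.br 1 (.br 8 (.dm [0, 1, 8, 9]) (.br 5 (.br 2 (.br 10 (.dm [0, 2, 9, 10]) (.dm [1, 2,
  9])) (.is 5)) (.br 10 (.dm [0, 1, 9, 10]) (.dm [0, 1, 9])))) (.br 8 (.dm [0, 8, 9]) (.br 5 (.br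
  2 (.br 6 (.dm [0, 2, 6, 9]) (.br 7 (.dm [0, 2, 7]) (.br 10 (.dm [0, 2, 9, 10]) (.br 11 (.dm [0,
  2, 9, 11]) (.dm [0, 2, 9]))))) (.is 5)) (.br 6 (.dm [0, 6, 9]) (.br 7 (.dm [0, 7, 9]) (.br 10
  (.dm [0, 9, 10]) (.br 11 (.dm [0, 9, 11]) (.dm [0, 9])))))))) (.br 8 (.br 1 (.dm [1, 8, 9]) (.br
  4 (.dm [4, 8, 9]) (.br 3 (.is 3) (.br 2 (.dm [2, 8, 9]) (.dm [8, 9]))))) (.br 2 (.br 3 (.br 6
  (.dm [2, 3, 6, 9]) (.br 7 (.dm [2, 3, 7]) (.br 10 (.dm [2, 3, 9, 10]) (.br 11 (.dm [2, 3, 9,
  11]) (.dm [2, 3, 9]))))) (.br 6 (.dm [2, 6, 9]) (.br 7 (.dm [2, 7]) (.br 10 (.dm [2, 9, 10])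
  (.br 11 (.dm [2, 9, 11]) (.dm [2, 9])))))) (.br 5 (.is 5) (.br 3 (.br 6 (.dm [3, 6, 9]) (.br 7
  (.dm [3, 7]) (.br 10 (.dm [3, 9, 10]) (.br 11 (.dm [3, 9, 11]) (.dm [3, 9]))))) (.br 11 (.dm [9,
  11]) (.br 4 (.dm [4, 9]) (.br 1 (.br 10 (.dm [1, 9, 10]) (.dm [1, 9])) (.br 10 (.dm [9, 10])
  (.dm [9]))))))))))

theorem ckE : tabE.ck false true none [] 4 treeE 0 0 = true := by decide +kernel

theorem ckB : (tabA true).ck false true none [] 4 treeB (1 <<< 9) 0 = true := by decide +kernel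

theorem ckC : (tabA false).ck false true none [] 4 treeC (1 <<< 9) 0 = true := by decide +kernel

/-- every set inducing a subgraph without isolated vertices has a dominating set with at most
four elements -/
theorem h4 [DecidableEq ι] (C : Cyc ι) (S : Finset (W ι))
    (hS : ∀ x ∈ S, ∃ y ∈ S, (GG C).Adj x y) : ∃ D, Dom (GG C) S D ∧ D.card ≤ 4 := by
  by_contra hno
  by_cases hB : ∃ g, r g ∈ S ∧ C.B g
  · obtain ⟨g, hg, hgB⟩ := hB
    refine sound (typA C S g true (by simp [hgB])) false true none [] 4 ∅ False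
      (by simp) (by simp) (by simp) (by simp) (fun _ => hS) hno (by simp) treeB (1 <<< 9) 0
      ⟨?_, by simp⟩ ckB
    intro i hi
    rw [Nat.one_shiftLeft, Nat.testBit_two_pow, decide_eq_true_eq] at hi
    exact ⟨r g, hg, by simp [typA, tyA, hi.symm]⟩
  · by_cases hC : ∃ g, r g ∈ S
    · obtain ⟨g, hg⟩ := hC
      have hgB : ¬ C.B g := fun h => hB ⟨g, hg, h⟩
      refine sound (typA C S g false (by simp [hgB])) false true none [] 4 ∅ False
        (by simp) (by simp) (by simp) (by simp) (fun _ => hS) hno (by simp) treeC (1 <<< 9) 0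
        ⟨?_, by simp⟩ ckC
      intro i hi
      rw [Nat.one_shiftLeft, Nat.testBit_two_pow, decide_eq_true_eq] at hi
      exact ⟨r g, hg, by simp [typA, tyA, hi.symm]⟩
    · push Not at hC
      exact sound (typE C S hC) false true none [] 4 ∅ False
        (by simp) (by simp) (by simp) (by simp) (fun _ => hS) hno (by simp) treeE 0 0
        ⟨by simp, by simp⟩ ckE

end Irr56

namespace Irr56

open W

variable {ι : Type}

/-- closed neighbourhood relation between cycle vertices (opaque) -/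
def rr (C : Cyc ι) (t t' : ι) : Prop := nb C (r t) (r t')

theorem nb_rr' (C : Cyc ι) (t t' : ι) : nb C (r t) (r t') ↔ rr C t t' := Iff.rfl

theorem rr_pair (C : Cyc ι) (v w u : ι) (hne : v ≠ w) (hcol : C.B v ↔ C.B w) :
    rr C v u ∨ rr C w u := pair_rule C v w hne hcol u

theorem rr_symm (C : Cyc ι) (v w : ι) (h : rr C v w) : rr C w v := nb_sym C h

set_option maxHeartbeats 4000000 in
theorem no_struct (C : Cyc ι) (a b y p q u1 u2 : W ι) (hab : a ≠ b) (hab' : nb C a b)
    (hay : a ≠ y) (hay' : nb C a y) (hby : b ≠ y) (hby' : nb C b y)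
    (hap : nb C a p) (hbp : ¬ nb C b p) (hpy : ¬ nb C p y)
    (hbq : nb C b q) (haq : ¬ nb C a q) (hqy : ¬ nb C q y)
    (h1 : ¬ nb C a u1) (h2 : ¬ nb C b u1) (h3 : ¬ nb C y u1)
    (h4 : ¬ nb C a u2) (h5: ¬ nb C b u2) (h6 : ¬ nb C y u2)
    (h7 : nb C p u1) (h8 : ¬ nb C q u1) (h9 : nb C q u2) (h10 : ¬ nb C p u2) : False := by
  cases a <;> cases b <;> first | exact hab' | exact hab rfl | skip
  all_goals (cases y <;> first | exact hay' | exact hby' | exact hay rfl | exact hby rfl | skip)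
  all_goals (cases p <;> first | exact hap | exact hbp trivial | exact hpy trivial | skip)
  all_goals (cases q <;> first | exact hbq | exact haq trivial | exact hqy trivial | skip)
  all_goals (cases u1 <;> first
    | exact h7
    | exact h8 trivial
    | exact h1 trivial
    | exact h2 trivial
    | exact h3 trivial
    | skip)
  all_goals (cases u2 <;> first
    | exact h9
    | exact h10 trivial
    | exact h4 trivial
    | exact h5 trivial
    | exact h6 trivial
    | skip)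
  all_goals (try simp only [nb_rr'] at *)
  all_goals (try simp only [nb, not_false_eq_true, not_not, ne_eq, W.r.injEq] at *)
  all_goals (try (exfalso; first | exact h4 (by assumption) | exact hbp (by assumption)))
  all_goals (have F := rr_pair C; have F2 := rr_symm C; grind)

/-- maximal irredundant pairs of adjacent vertices -/
theorem h2 [DecidableEq ι] (C : Cyc ι) (S : Finset (W ι)) (a b : W ι)
    (hab : (GG C).Adj a b) (hX : MaxIrr (GG C) S {a, b}) :
    ∃ D, Dom (GG C) S D ∧ D.card ≤ 2 := by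
  by_contra hno
  obtain ⟨y, p, q, u1, u2, hay, hby, hap, hbp, hpy, hbq, haq, hqy, g1, g2, g3, g4, g5, g6, g7,
    g8, g9, g10⟩ := pair_structure hab hX hno
  rw [Nb_iff] at hbp hpy haq hqy g1 g2 g3 g4 g5 g6 g7 g8 g9 g10
  exact no_struct C a b y p q u1 u2 hab.1 hab.2 hay.1 hay.2 hby.1 hby.2 hap.2 hbp hpy hbq.2 haq
    hqy g1 g2 g3 g4 g5 g6 g7 g8 g9 g10

end Irr56
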